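import Pool.Agent.Run7.h251.SP.Vec

/-! Properties of almost all tuples hold for all integer tuples near `λ_n α`, for almost every real tuple `α`. -/

set_option autoImplicit false

namespace Run7.h251.SP

open Finset MeasureTheory Filter
open scoped ENNReal

theorem near_seq {k : ℕ} (V : (Fin k → ℕ) → Prop) (hV : Sparse k V) (ε : ℝ) (hε : 0 < ε) (lam : ℕ → ℝ)
    (hlam : ∀ n : ℕ, Real.exp ((n : ℝ) ^ ε) ≤ lam n) (T : ℕ) : ∀ᵐ α : Fin k → ℝ, ∀ᶠ n : ℕ in atTop, ∀ a : Fin k → ℕ,
      (∀ i, 1 ≤ a i) → (∀ i, |((a i : ℝ) - lam n * |α i|)| ≤ Real.log (lam n) ^ T) → V a := by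
  classical
  have hlam0 : ∀ n, 1 ≤ lam n := fun n => le_trans (Real.one_le_exp (by positivity)) (hlam n)
  have hlog : ∀ n : ℕ, (n : ℝ) ^ ε ≤ Real.log (lam n) := fun n => by
    rw [Real.le_log_iff_exp_le (by linarith [hlam0 n])]
    exact hlam n
  have hninf : Tendsto (fun n : ℕ => (n : ℝ) ^ ε) atTop atTop :=
    (tendsto_rpow_atTop hε).comp tendsto_natCast_atTop_atTop
  have hloginf : Tendsto (fun n : ℕ => Real.log (lam n)) atTop atTop := tendsto_atTop_mono hlog hninf
  have hlaminf : Tendsto lam atTop atTop := by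
    refine tendsto_atTop_mono (fun n => ?_) hloginf
    have h1 := Real.log_le_sub_one_of_pos (show 0 < lam n by linarith [hlam0 n])
    linarith
  obtain ⟨A, hA⟩ : ∃ A : ℕ, 2 ≤ ε * A := by
    obtain ⟨A, hA⟩ := exists_nat_ge (2 / ε)
    refine ⟨A, ?_⟩
    rw [div_le_iff₀ hε] at hA
    linarith
  obtain ⟨X₀, hX₀⟩ := hV (A + T * k)
  have key : ∀ M : ℕ, ∀ᵐ α : Fin k → ℝ, (∀ i, |α i| ≤ M) → ∀ᶠ n : ℕ in atTop, ∀ a : Fin k → ℕ,
      (∀ i, 1 ≤ a i) → (∀ i, |((a i : ℝ) - lam n * |α i|)| ≤ Real.log (lam n) ^ T) → V a := by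
    intro M
    obtain ⟨X, hX⟩ : ∃ X : ℕ → ℕ, X = fun n => ⌈((M : ℝ) + 1) * lam n⌉₊ := ⟨_, rfl⟩
    have hX1 : ∀ n, ((M : ℝ) + 1) * lam n ≤ X n := fun n => by rw [hX]; exact Nat.le_ceil _
    have hX2 : ∀ n, (X n : ℝ) ≤ ((M : ℝ) + 2) * lam n := fun n => by
      have h1 : (X n : ℝ) < ((M : ℝ) + 1) * lam n + 1 := by
        rw [hX]
        exact Nat.ceil_lt_add_one (by have := hlam0 n; positivity)
      have := hlam0 n
      linarith
    obtain ⟨B, hB⟩ : ∃ B : ℕ → Finset (Fin k → ℕ), B = fun n =>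
      (Fintype.piFinset (fun _ : Fin k => Icc 1 (X n))).filter (fun a => ¬ V a) := ⟨_, rfl⟩
    obtain ⟨S, hS⟩ : ∃ S : ℕ → Set (Fin k → ℝ), S = fun n =>
      ⋃ a ∈ B n, {α : Fin k → ℝ | ∀ i : Fin k, |(|α i| - (a i : ℝ) / lam n)| ≤ Real.log (lam n) ^ T / lam n} := ⟨_, rfl⟩
    have hXlarge : ∀ᶠ n : ℕ in atTop, X₀ ≤ X n := by
      have h1 : Tendsto (fun n => (X n : ℝ)) atTop atTop := by
        refine tendsto_atTop_mono (fun n => ?_) hlaminf
        refine le_trans ?_ (hX1 n)
        have := hlam0 n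
        have h2 : (0 : ℝ) ≤ M := Nat.cast_nonneg _
        nlinarith
      filter_upwards [h1.eventually_ge_atTop (X₀ : ℝ)] with n hn
      exact_mod_cast hn
    obtain ⟨C, hC⟩ : ∃ C : ℝ, C = (4 * ((M : ℝ) + 2)) ^ k := ⟨_, rfl⟩
    have hvol : ∀ᶠ n : ℕ in atTop, volume (S n) ≤ ENNReal.ofReal (C * (1 / (n : ℝ) ^ 2)) := by
      filter_upwards [hXlarge, eventually_ge_atTop 1] with n hn hn1
      have hl0 := hlam0 n
      have hn1r : (1 : ℝ) ≤ n := by exact_mod_cast hn1
      have hne : (1 : ℝ) ≤ (n : ℝ) ^ ε := Real.one_le_rpow hn1r hε.le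
      obtain ⟨l, hl⟩ : ∃ l, l = Real.log (lam n) := ⟨_, rfl⟩
      have hle := hlog n
      rw [← hl] at hle
      have hl1 : 1 ≤ l := hne.trans hle
      have hlam00 : 0 < lam n := by linarith
      have h1 : volume (S n) ≤ ∑ a ∈ B n, volume {α : Fin k → ℝ | ∀ i : Fin k,
          |(|α i| - (a i : ℝ) / lam n)| ≤ Real.log (lam n) ^ T / lam n} := by
        rw [hS]
        exact measure_biUnion_finset_le _ _
      refine h1.trans ((sum_le_sum fun a _ => vol_box (fun i => (a i : ℝ) / lam n) _ (by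
        rw [← hl]; positivity)).trans ?_)
      rw [sum_const, nsmul_eq_mul, ← ENNReal.ofReal_natCast, ← ENNReal.ofReal_mul (Nat.cast_nonneg _)]
      apply ENNReal.ofReal_le_ofReal
      rw [← hl]
      have h2 : ((B n).card : ℝ) ≤ (X n : ℝ) ^ k / Real.log (X n) ^ (A + T * k) := by
        apply hX₀ (X n) hn
        intro a ha
        rw [hB] at ha
        simp only [mem_filter, Fintype.mem_piFinset, mem_Icc] at ha
        exact ha
      have h3 : l ≤ Real.log (X n) := by
        rw [hl]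
        apply Real.log_le_log hlam00
        refine le_trans ?_ (hX1 n)
        have h4 : (0 : ℝ) ≤ M := Nat.cast_nonneg _
        nlinarith
      have h4 : (X n : ℝ) ^ k / Real.log (X n) ^ (A + T * k) ≤ (((M : ℝ) + 2) * lam n) ^ k / l ^ (A + T * k) := by
        apply div_le_div₀ (by positivity) (pow_le_pow_left₀ (Nat.cast_nonneg _) (hX2 n) k) (by positivity)
        exact pow_le_pow_left₀ (by linarith) h3 _
      have h5 : (n : ℝ) ^ 2 ≤ l ^ A := by
        calc (n : ℝ) ^ 2 = (n : ℝ) ^ (2 : ℝ) := by rw [Real.rpow_two]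
          _ ≤ (n : ℝ) ^ (ε * A) := Real.rpow_le_rpow_of_exponent_le hn1r hA
          _ = ((n : ℝ) ^ ε) ^ A := by rw [Real.rpow_mul (by linarith), Real.rpow_natCast]
          _ ≤ l ^ A := pow_le_pow_left₀ (by positivity) hle A
      calc ((B n).card : ℝ) * (4 * (l ^ T / lam n)) ^ k ≤
          (((M : ℝ) + 2) * lam n) ^ k / l ^ (A + T * k) * (4 * (l ^ T / lam n)) ^ k :=
            mul_le_mul_of_nonneg_right (h2.trans h4) (by positivity)
        _ = C * (1 / l ^ A) := by
          have e1 : l ^ (A + T * k) = l ^ A * (l ^ T) ^ k := by rw [pow_add, pow_mul]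
          rw [e1, hC]
          simp only [mul_pow, div_pow]
          field_simp
        _ ≤ C * (1 / (n : ℝ) ^ 2) := by
          apply mul_le_mul_of_nonneg_left _ (by rw [hC]; positivity)
          exact one_div_le_one_div_of_le (by positivity) h5
    obtain ⟨J, hJ⟩ := eventually_atTop.1 hvol
    have hsum : ∑' j, volume (S (j + J)) ≠ ∞ := by
      have hs : Summable (fun j : ℕ => C * (1 / ((j + J : ℕ) : ℝ) ^ 2)) := by
        have h1 : Summable (fun j : ℕ => 1 / ((j : ℝ)) ^ 2) := Real.summable_one_div_nat_pow.2 (by norm_num)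
        exact ((summable_nat_add_iff J).2 h1).mul_left C
      have h1 : ∑' j, volume (S (j + J)) ≤ ∑' j : ℕ, ENNReal.ofReal (C * (1 / ((j + J : ℕ) : ℝ) ^ 2)) :=
        ENNReal.tsum_le_tsum (fun j => hJ (j + J) (by omega))
      rw [← ENNReal.ofReal_tsum_of_nonneg (fun j => by rw [hC]; positivity) hs] at h1
      exact ne_top_of_le_ne_top ENNReal.ofReal_ne_top h1
    have hae := ae_eventually_notMem hsum
    have hsmall : ∀ᶠ n : ℕ in atTop, Real.log (lam n) ^ T ≤ lam n := by
      have h1 : Tendsto (fun x : ℝ => Real.log x ^ T / x) atTop (nhds 0) :=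
        (Real.isLittleO_pow_log_id_atTop (n := T)).tendsto_div_nhds_zero
      have h2 := (h1.comp hlaminf).eventually (gt_mem_nhds (show (0 : ℝ) < 1 by norm_num))
      filter_upwards [h2] with n h3
      simp only [Function.comp] at h3
      rw [div_lt_one (by linarith [hlam0 n])] at h3
      exact h3.le
    filter_upwards [hae] with α hα hM
    obtain ⟨J₁, hJ₁⟩ := eventually_atTop.1 hα
    filter_upwards [hsmall, eventually_ge_atTop (J₁ + J)] with n hn1 hn2
    intro a ha1 ha2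
    by_contra hcon
    have h1 := hJ₁ (n - J) (by omega)
    rw [Nat.sub_add_cancel (by omega)] at h1
    apply h1
    have hl0 := hlam0 n
    have hlam00 : 0 < lam n := by linarith
    rw [hS]
    simp only [Set.mem_iUnion]
    refine ⟨a, ?_, ?_⟩
    · rw [hB]
      simp only [mem_filter, Fintype.mem_piFinset, mem_Icc]
      refine ⟨fun i => ⟨ha1 i, ?_⟩, hcon⟩
      have h2 := (abs_le.1 (ha2 i)).2
      have h3 : lam n * |α i| ≤ lam n * M := mul_le_mul_of_nonneg_left (hM i) hlam00.le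
      have h4 : (a i : ℝ) ≤ X n := by
        refine le_trans ?_ (hX1 n)
        linarith
      exact_mod_cast h4
    · intro i
      have e : |α i| - (a i : ℝ) / lam n = -(((a i : ℝ) - lam n * |α i|) / lam n) := by
        field_simp
        ring
      rw [e, abs_neg, abs_div, abs_of_pos hlam00]
      exact div_le_div_of_nonneg_right (ha2 i) hlam00.le
  have hall := ae_all_iff.2 key
  filter_upwards [hall] with α hα
  obtain ⟨M, hM⟩ := exists_nat_ge ‖α‖
  refine hα M (fun i => ?_)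
  have h1 := norm_le_pi_norm α i
  rw [Real.norm_eq_abs] at h1
  exact h1.trans hM

end Run7.h251.SP
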