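import Pool.Agent.Run7.h251.SP.Few

/-! Properties of almost all tuples hold for the tuples of the numerators and the denominator of all good
approximations of almost every real tuple. -/

set_option autoImplicit false

namespace Run7.h251.SP

open Finset MeasureTheory Filter
open scoped ENNReal

/-- the tuple `m q, m |p_1|, ..., m |p_d|` -/
def tup {d : ℕ} (m : ℕ) (p : Fin d → ℤ) (q : ℕ) : Fin (d + 1) → ℕ :=
  fun i => m * (Fin.cons q (fun i => (p i).natAbs) : Fin (d + 1) → ℕ) i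

open Classical in
/-- the tuples with a zero coordinate or with a small multiple without the property -/
noncomputable def bad {k : ℕ} (V : (Fin k → ℕ) → Prop) (H R : ℕ) : Finset (Fin k → ℕ) :=
  (Fintype.piFinset (fun _ : Fin k => range (R + 1))).filter
    (fun b => (∃ i, b i = 0) ∨ ∃ m ∈ Icc 1 H, ¬ V (fun i => m * b i))

theorem mem_bad {k : ℕ} (V : (Fin k → ℕ) → Prop) (H R : ℕ) (b : Fin k → ℕ) : b ∈ bad V H R ↔
    (∀ i, b i ≤ R) ∧ ((∃ i, b i = 0) ∨ ∃ m ∈ Icc 1 H, ¬ V (fun i => m * b i)) := by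
  classical
  unfold bad
  rw [mem_filter, Fintype.mem_piFinset]
  simp only [mem_range, Nat.lt_succ_iff]

theorem card_zero {k : ℕ} (R : ℕ) (i : Fin k) :
    ((Fintype.piFinset (fun _ : Fin k => range (R + 1))).filter (fun b => b i = 0)).card ≤ (R + 1) ^ (k - 1) := by
  classical
  have h : ((Fintype.piFinset (fun _ : Fin k => range (R + 1))).filter (fun b => b i = 0)) ⊆
      (Fintype.piFinset (fun l : Fin k => if l = i then ({0} : Finset ℕ) else range (R + 1))) := by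
    intro b hb
    rw [mem_filter, Fintype.mem_piFinset] at hb
    rw [Fintype.mem_piFinset]
    intro l
    by_cases hl : l = i
    · rw [if_pos hl, hl, mem_singleton]
      exact hb.2
    · rw [if_neg hl]
      exact hb.1 l
  refine (card_le_card h).trans (le_of_eq ?_)
  rw [Fintype.card_piFinset]
  have h1 : ∀ l ∈ (univ : Finset (Fin k)), (if l = i then ({0} : Finset ℕ) else range (R + 1)).card =
      if l = i then 1 else (R + 1) := by
    intro l _
    split_ifs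
    · exact card_singleton _
    · rw [card_range]
  rw [prod_congr rfl h1, ← mul_prod_erase univ _ (mem_univ i), if_pos rfl, one_mul]
  have h2 : ∀ l ∈ univ.erase i, (if l = i then 1 else (R + 1)) = R + 1 := fun l hl => if_neg (ne_of_mem_erase hl)
  rw [prod_congr rfl h2, prod_const, card_erase_of_mem (mem_univ i), card_univ, Fintype.card_fin]

theorem card_bad {k : ℕ} (V : (Fin k → ℕ) → Prop) (H R A : ℕ)
    (hV : ∀ Ex : Finset (Fin k → ℕ), (∀ a ∈ Ex, (∀ i, 1 ≤ a i ∧ a i ≤ H * R) ∧ ¬ V a) →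
      (Ex.card : ℝ) ≤ ((H * R : ℕ) : ℝ) ^ k / Real.log ((H * R : ℕ) : ℝ) ^ A) :
    ((bad V H R).card : ℝ) ≤ k * ((R : ℝ) + 1) ^ (k - 1) +
      H * (((H * R : ℕ) : ℝ) ^ k / Real.log ((H * R : ℕ) : ℝ) ^ A) := by
  classical
  obtain ⟨Z, hZ⟩ : ∃ Z : Fin k → Finset (Fin k → ℕ), Z = fun i =>
    (Fintype.piFinset (fun _ : Fin k => range (R + 1))).filter (fun b => b i = 0) := ⟨_, rfl⟩
  obtain ⟨Y, hY⟩ : ∃ Y : ℕ → Finset (Fin k → ℕ), Y = fun m =>
    (Fintype.piFinset (fun _ : Fin k => Icc 1 R)).filter (fun b => ¬ V (fun i => m * b i)) := ⟨_, rfl⟩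
  have hsub : bad V H R ⊆ (univ : Finset (Fin k)).biUnion Z ∪ (Icc 1 H).biUnion Y := by
    intro b hb
    rw [mem_bad] at hb
    obtain ⟨h1, h2⟩ := hb
    rw [mem_union, mem_biUnion, mem_biUnion]
    by_cases h3 : ∃ i, b i = 0
    · left
      obtain ⟨i, hi⟩ := h3
      refine ⟨i, mem_univ _, ?_⟩
      rw [hZ]
      simp only [mem_filter, Fintype.mem_piFinset, mem_range, Nat.lt_succ_iff]
      exact ⟨h1, hi⟩
    · right
      rcases h2 with h2 | ⟨m, hm, h2⟩
      · exact absurd h2 h3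
      · push Not at h3
        refine ⟨m, hm, ?_⟩
        rw [hY]
        simp only [mem_filter, Fintype.mem_piFinset, mem_Icc]
        exact ⟨fun i => ⟨Nat.one_le_iff_ne_zero.2 (h3 i), h1 i⟩, h2⟩
  have h1 := (card_le_card hsub).trans (card_union_le _ _)
  have h2 : ((univ : Finset (Fin k)).biUnion Z).card ≤ k * (R + 1) ^ (k - 1) := by
    refine card_biUnion_le.trans ?_
    calc _ ≤ ∑ _i : Fin k, (R + 1) ^ (k - 1) := sum_le_sum fun i _ => by
          rw [hZ]
          exact card_zero R i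
      _ = _ := by rw [sum_const, card_univ, Fintype.card_fin, smul_eq_mul]
  have h3 : (((Icc 1 H).biUnion Y).card : ℝ) ≤ H * (((H * R : ℕ) : ℝ) ^ k / Real.log ((H * R : ℕ) : ℝ) ^ A) := by
    have h4 : (((Icc 1 H).biUnion Y).card : ℝ) ≤ ∑ m ∈ Icc 1 H, ((Y m).card : ℝ) := by
      exact_mod_cast card_biUnion_le
    refine h4.trans ?_
    calc _ ≤ ∑ _m ∈ Icc 1 H, (((H * R : ℕ) : ℝ) ^ k / Real.log ((H * R : ℕ) : ℝ) ^ A) := by
          refine sum_le_sum fun m hm => ?_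
          rw [mem_Icc] at hm
          have h5 := hV ((Y m).image (fun b : Fin k → ℕ => fun i => m * b i)) (by
            intro a ha
            rw [mem_image] at ha
            obtain ⟨b, hb, rfl⟩ := ha
            rw [hY] at hb
            simp only [mem_filter, Fintype.mem_piFinset, mem_Icc] at hb
            refine ⟨fun i => ⟨?_, ?_⟩, hb.2⟩
            · exact Nat.mul_pos hm.1 (hb.1 i).1
            · exact Nat.mul_le_mul hm.2 (hb.1 i).2)
          rw [card_image_of_injective] at h5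
          · exact h5
          · intro b c hbc
            funext i
            exact Nat.eq_of_mul_eq_mul_left hm.1 (congrFun hbc i)
      _ = _ := by rw [sum_const, Nat.card_Icc, Nat.add_sub_cancel, nsmul_eq_mul]
  have h4 : ((bad V H R).card : ℝ) ≤ ((univ : Finset (Fin k)).biUnion Z).card + (((Icc 1 H).biUnion Y).card : ℝ) := by
    exact_mod_cast h1
  have h5 : (((univ : Finset (Fin k)).biUnion Z).card : ℝ) ≤ k * ((R : ℝ) + 1) ^ (k - 1) := by exact_mod_cast h2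
  linarith

theorem rad_pow (d : ℕ) (hd : 1 ≤ d) (T P : ℝ) (hP : 0 < P) :
    (4 * (T / P ^ (1 + 1 / (d : ℝ)))) ^ d = (4 * T) ^ d / P ^ (d + 1) := by
  have hd0 : (d : ℝ) ≠ 0 := by exact_mod_cast (by omega : d ≠ 0)
  have e : (P ^ (1 + 1 / (d : ℝ))) ^ d = P ^ (d + 1) := by
    rw [← Real.rpow_natCast (P ^ (1 + 1 / (d : ℝ))) d, ← Real.rpow_mul hP.le]
    have : (1 + 1 / (d : ℝ)) * d = ((d + 1 : ℕ) : ℝ) := by
      push_cast
      field_simp
    rw [this, Real.rpow_natCast]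
  rw [← mul_div_assoc, div_pow, e]

theorem pow_le_two_pow (K : ℕ) : ∃ J : ℕ, ∀ j : ℕ, J ≤ j → ((j : ℝ) + 1) ^ K ≤ 2 ^ j := by
  have h1 := tendsto_pow_const_div_const_pow_of_one_lt K (show (1 : ℝ) < 2 by norm_num)
  have h2 := h1.eventually (gt_mem_nhds (show (0 : ℝ) < 1 / 2 by norm_num))
  obtain ⟨J, hJ⟩ := eventually_atTop.1 h2
  refine ⟨J, fun j hj => ?_⟩
  have h3 := hJ (j + 1) (by omega)
  rw [div_lt_iff₀ (by positivity), pow_succ] at h3
  push_cast at h3
  linarith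

theorem est {d : ℕ} (hd : 1 ≤ d) (V : (Fin (d + 1) → ℕ) → Prop) (hV : Sparse (d + 1) V) (W M : ℕ) :
    ∃ C : ℝ, 0 ≤ C ∧ ∃ J : ℕ, ∀ j : ℕ, J ≤ j →
    ((bad V ((j + 1) ^ W) ((M + 1) * 2 ^ (j + 1))).card : ℝ) *
      (4 * (((j : ℝ) + 1) ^ W / ((2 : ℝ) ^ j) ^ (1 + 1 / (d : ℝ)))) ^ d ≤ C / ((j : ℝ) + 1) ^ 2 := by
  classical
  obtain ⟨A, hA⟩ : ∃ A, A = W * (2 * d + 2) + 2 := ⟨_, rfl⟩
  obtain ⟨X₀, hX₀⟩ := hV A
  obtain ⟨J, hJ⟩ := pow_le_two_pow (W * d + 2)
  obtain ⟨C₁, hC₁⟩ : ∃ C₁ : ℝ, C₁ = (d + 1) * (4 * ((M : ℝ) + 1)) ^ d * 4 ^ d := ⟨_, rfl⟩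
  obtain ⟨C₂, hC₂⟩ : ∃ C₂ : ℝ, C₂ = (2 * ((M : ℝ) + 1)) ^ (d + 1) * 2 ^ A * 4 ^ d := ⟨_, rfl⟩
  refine ⟨C₁ + C₂, by rw [hC₁, hC₂]; positivity, X₀ + J, fun j hj => ?_⟩
  have hJ := hJ j (by omega)
  obtain ⟨t, ht⟩ : ∃ t : ℝ, t = (j : ℝ) + 1 := ⟨_, rfl⟩
  obtain ⟨P, hP⟩ : ∃ P : ℝ, P = (2 : ℝ) ^ j := ⟨_, rfl⟩
  obtain ⟨T, hT⟩ : ∃ T : ℝ, T = t ^ W := ⟨_, rfl⟩
  rw [← ht, ← hP, pow_add, pow_mul, ← hT] at hJ
  have ht1 : 1 ≤ t := by rw [ht]; have : (0 : ℝ) ≤ j := Nat.cast_nonneg _; linarith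
  have ht0 : 0 < t := by linarith
  have hP1 : 1 ≤ P := by rw [hP]; exact one_le_pow₀ (by norm_num)
  have hP0 : 0 < P := by linarith
  have hT1 : 1 ≤ T := by rw [hT]; exact one_le_pow₀ ht1
  have hT0 : 0 < T := by linarith
  obtain ⟨H, hH⟩ : ∃ H, H = (j + 1) ^ W := ⟨_, rfl⟩
  obtain ⟨R, hR⟩ : ∃ R, R = (M + 1) * 2 ^ (j + 1) := ⟨_, rfl⟩
  have hHr : (H : ℝ) = T := by rw [hH, hT, ht]; push_cast; rfl
  have hRr : (R : ℝ) = 2 * (M + 1) * P := by rw [hR, hP]; push_cast; ring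
  have hH1 : 1 ≤ H := by rw [hH]; exact Nat.one_le_pow _ _ (by omega)
  have hR2 : 2 ^ (j + 1) ≤ R := by rw [hR]; exact Nat.le_mul_of_pos_left _ (by omega)
  have hR1 : 1 ≤ R := le_trans (Nat.one_le_pow _ _ (by norm_num)) hR2
  have hYR : R ≤ H * R := Nat.le_mul_of_pos_left _ (by omega)
  have hYX : X₀ ≤ H * R := by
    have h1 : j < 2 ^ j := Nat.lt_two_pow_self
    have h2 : 2 ^ j ≤ 2 ^ (j + 1) := Nat.pow_le_pow_right (by norm_num) (by omega)
    omega
  have hb := card_bad V H R A (hX₀ (H * R) hYX)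
  have hlogY : t / 2 ≤ Real.log ((H * R : ℕ) : ℝ) := by
    have h2 : (j + 1 : ℝ) * Real.log 2 ≤ Real.log ((H * R : ℕ) : ℝ) := by
      have e : (j + 1 : ℝ) * Real.log 2 = Real.log (((2 ^ (j + 1) : ℕ)) : ℝ) := by
        push_cast
        rw [Real.log_pow]
        push_cast
        ring
      rw [e]
      apply Real.log_le_log
      · positivity
      · exact_mod_cast hR2.trans hYR
    have h3 := Real.log_two_gt_d9
    have h4 : t / 2 ≤ (j + 1 : ℝ) * Real.log 2 := by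
      rw [← ht]
      nlinarith
    linarith
  have hE : ((H * R : ℕ) : ℝ) ^ (d + 1) / Real.log ((H * R : ℕ) : ℝ) ^ A ≤ (T * (2 * (M + 1) * P)) ^ (d + 1) * 2 ^ A / t ^ A := by
    have h2 : (t / 2) ^ A ≤ Real.log ((H * R : ℕ) : ℝ) ^ A := pow_le_pow_left₀ (by positivity) hlogY A
    calc ((H * R : ℕ) : ℝ) ^ (d + 1) / Real.log ((H * R : ℕ) : ℝ) ^ A ≤ ((H * R : ℕ) : ℝ) ^ (d + 1) / (t / 2) ^ A :=
          div_le_div_of_nonneg_left (by positivity) (by positivity) h2
      _ = _ := by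
        rw [Nat.cast_mul, hHr, hRr, div_pow]
        field_simp
  have hR1r : (1 : ℝ) ≤ R := by exact_mod_cast hR1
  have hR1' : (R : ℝ) + 1 ≤ 4 * (M + 1) * P := by
    rw [hRr] at hR1r ⊢
    linarith
  have hb' : ((bad V H R).card : ℝ) ≤ (d + 1) * (4 * (M + 1) * P) ^ d + T * ((T * (2 * (M + 1) * P)) ^ (d + 1) * 2 ^ A / t ^ A) := by
    refine hb.trans ?_
    rw [Nat.add_sub_cancel]
    push_cast
    push_cast at hE
    apply add_le_add
    · apply mul_le_mul_of_nonneg_left _ (by positivity)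
      exact pow_le_pow_left₀ (by positivity) hR1' d
    · rw [hHr] at hE ⊢
      exact mul_le_mul_of_nonneg_left hE hT0.le
  rw [← hH, ← hR, ← ht, ← hT, ← hP, rad_pow d hd T P hP0]
  have h5 := mul_le_mul_of_nonneg_right hb' (by positivity : 0 ≤ (4 * T) ^ d / P ^ (d + 1))
  refine h5.trans ?_
  rw [add_mul, add_div]
  apply add_le_add
  · -- the tuples with a zero coordinate
    have e : ((d : ℝ) + 1) * (4 * (M + 1) * P) ^ d * ((4 * T) ^ d / P ^ (d + 1)) = C₁ * T ^ d / P := by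
      rw [hC₁, pow_succ P d]
      simp only [mul_pow]
      field_simp
    rw [e, div_le_div_iff₀ hP0 (by positivity)]
    have hC0 : 0 ≤ C₁ := by rw [hC₁]; positivity
    calc C₁ * T ^ d * t ^ 2 = C₁ * (T ^ d * t ^ 2) := by ring
      _ ≤ C₁ * P := mul_le_mul_of_nonneg_left hJ hC0
  · refine le_of_eq ?_
    have hA' : t ^ A = T ^ (2 * d + 2) * t ^ 2 := by
      rw [hA, pow_add, pow_mul, hT]
    rw [hA', hC₂]
    simp only [mul_pow]
    have e1 : T ^ (2 * d + 2) = T ^ (d + 1) * T * T ^ d := by ring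
    rw [e1]
    field_simp

/-- the reals whose absolute value is near `c` -/
theorem vol_near (c r : ℝ) (hr : 0 ≤ r) : volume {t : ℝ | |(|t| - c)| ≤ r} ≤ ENNReal.ofReal (4 * r) := by
  have h1 : {t : ℝ | |(|t| - c)| ≤ r} ⊆ Metric.closedBall c r ∪ Metric.closedBall (-c) r := by
    intro t ht
    rw [Set.mem_ofPred_eq] at ht
    rcases le_or_gt 0 t with h | h
    · left
      rw [Metric.mem_closedBall, Real.dist_eq]
      rwa [abs_of_nonneg h] at ht
    · right
      rw [Metric.mem_closedBall, Real.dist_eq]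
      rw [abs_of_neg h] at ht
      rw [← abs_neg]
      convert ht using 2
      ring
  refine (measure_mono h1).trans ((measure_union_le _ _).trans ?_)
  rw [Real.volume_closedBall, Real.volume_closedBall, ← ENNReal.ofReal_add (by positivity) (by positivity)]
  apply ENNReal.ofReal_le_ofReal
  linarith

theorem vol_box {d : ℕ} (c : Fin d → ℝ) (r : ℝ) (hr : 0 ≤ r) :
    volume {α : Fin d → ℝ | ∀ i, |(|α i| - c i)| ≤ r} ≤ ENNReal.ofReal ((4 * r) ^ d) := by
  have h1 : {α : Fin d → ℝ | ∀ i, |(|α i| - c i)| ≤ r} = Set.pi Set.univ (fun i => {t : ℝ | |(|t| - c i)| ≤ r}) := by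
    ext α
    simp
  rw [h1, volume_pi_pi]
  calc ∏ i, volume {t : ℝ | |(|t| - c i)| ≤ r} ≤ ∏ _i : Fin d, ENNReal.ofReal (4 * r) :=
        Finset.prod_le_prod' fun i _ => vol_near (c i) r hr
    _ = _ := by rw [prod_const, card_univ, Fintype.card_fin, ← ENNReal.ofReal_pow (by positivity)]

/-- `q ≥ 1`, and the rational tuple `p / q` approximates `α` up to `(log q)^W / q^(1 + 1/d)` in all coordinates. -/
def Approx (d W : ℕ) (α : Fin d → ℝ) (p : Fin d → ℤ) (q : ℕ) : Prop :=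
  1 ≤ q ∧ ∀ i, |α i - p i / q| ≤ Real.log q ^ W / (q : ℝ) ^ (1 + 1 / (d : ℝ))

theorem approx_finite (d W M : ℕ) (α : Fin d → ℝ) (hM : ∀ i, |α i| ≤ M) (q₀ : ℕ) (S : Set ((Fin d → ℤ) × ℕ))
    (hS : ∀ z ∈ S, Approx d W α z.1 z.2) (hq : ∀ z ∈ S, z.2 ≤ q₀) : S.Finite := by
  obtain ⟨B, hB⟩ : ∃ B : ℕ, (q₀ : ℝ) * (M + Real.log q₀ ^ W) ≤ B := exists_nat_ge _
  apply Set.Finite.subset (((Fintype.piFinset (fun _ : Fin d => Icc (-(B : ℤ)) B)) ×ˢ (range (q₀ + 1))).finite_toSet)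
  rintro ⟨p, q⟩ hz
  have hq := hq _ hz
  obtain ⟨hq1, hap⟩ := hS _ hz
  simp only at hq hq1 hap
  rw [mem_coe, mem_product, Fintype.mem_piFinset, mem_range]
  refine ⟨fun i => ?_, by simp only; omega⟩
  rw [mem_Icc, ← abs_le]
  have hq0r : (0 : ℝ) < q := by exact_mod_cast (by omega : 0 < q)
  have hq1r : (1 : ℝ) ≤ q := by exact_mod_cast hq1
  have hlq0 : 0 ≤ Real.log q := Real.log_nonneg hq1r
  have h3 := hap i
  have h4 : Real.log q ^ W / (q : ℝ) ^ (1 + 1 / (d : ℝ)) ≤ Real.log q₀ ^ W := by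
    have h5 : (1 : ℝ) ≤ (q : ℝ) ^ (1 + 1 / (d : ℝ)) := Real.one_le_rpow hq1r (by positivity)
    refine (div_le_self (by positivity) h5).trans ?_
    apply pow_le_pow_left₀ hlq0
    exact Real.log_le_log hq0r (by exact_mod_cast hq)
  have h5 : |(p i : ℝ) / q| ≤ M + Real.log q₀ ^ W := by
    have h6 := abs_sub_abs_le_abs_sub ((p i : ℝ) / q) (α i)
    rw [abs_sub_comm] at h6
    have h7 := hM i
    linarith
  rw [abs_div, abs_of_pos hq0r, div_le_iff₀ hq0r] at h5
  have h6 : |(p i : ℝ)| ≤ (B : ℝ) := by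
    refine h5.trans (le_trans ?_ hB)
    rw [mul_comm]
    apply mul_le_mul_of_nonneg_right (by exact_mod_cast hq)
    have h7 : 0 ≤ Real.log q₀ ^ W := by
      apply pow_nonneg
      apply Real.log_nonneg
      exact hq1r.trans (by exact_mod_cast hq)
    positivity
  exact_mod_cast h6

theorem vec {d : ℕ} (hd : 1 ≤ d) (V : (Fin (d + 1) → ℕ) → Prop) (hV : Sparse (d + 1) V) (W : ℕ) : ∀ᵐ α : Fin d → ℝ,
    {z : (Fin d → ℤ) × ℕ | Approx d W α z.1 z.2 ∧ ∃ m : ℕ, 1 ≤ m ∧ (m : ℝ) ≤ Real.log z.2 ^ W ∧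
      ¬ V (tup m z.1 z.2)}.Finite := by
  classical
  have key : ∀ M : ℕ, ∀ᵐ α : Fin d → ℝ, (∀ i, |α i| ≤ M) →
      {z : (Fin d → ℤ) × ℕ | Approx d W α z.1 z.2 ∧ ∃ m : ℕ, 1 ≤ m ∧ (m : ℝ) ≤ Real.log z.2 ^ W ∧
        ¬ V (tup m z.1 z.2)}.Finite := by
    intro M
    obtain ⟨C, hC0, J, hJ⟩ := est hd V hV W M
    obtain ⟨r, hr⟩ : ∃ r : ℕ → ℝ, r = fun j : ℕ => ((j : ℝ) + 1) ^ W / ((2 : ℝ) ^ j) ^ (1 + 1 / (d : ℝ)) := ⟨_, rfl⟩
    have hr0 : ∀ j, 0 ≤ r j := fun j => by rw [hr]; positivity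
    obtain ⟨S, hS⟩ : ∃ S : ℕ → Set (Fin d → ℝ), S = fun j =>
      ⋃ b ∈ bad V ((j + 1) ^ W) ((M + 1) * 2 ^ (j + 1)),
        {α : Fin d → ℝ | ∀ i : Fin d, |(|α i| - (b i.succ : ℝ) / (b 0 : ℝ))| ≤ r j} := ⟨_, rfl⟩
    have hvol : ∀ j, J ≤ j → volume (S j) ≤ ENNReal.ofReal (C / ((j : ℝ) + 1) ^ 2) := by
      intro j hj
      have h1 : volume (S j) ≤ ∑ b ∈ bad V ((j + 1) ^ W) ((M + 1) * 2 ^ (j + 1)),
          volume {α : Fin d → ℝ | ∀ i : Fin d, |(|α i| - (b i.succ : ℝ) / (b 0 : ℝ))| ≤ r j} := by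
        rw [hS]
        exact measure_biUnion_finset_le _ _
      refine h1.trans ?_
      refine (sum_le_sum fun b _ => vol_box (fun i => (b i.succ : ℝ) / (b 0 : ℝ)) (r j) (hr0 j)).trans ?_
      rw [sum_const, nsmul_eq_mul, ← ENNReal.ofReal_natCast, ← ENNReal.ofReal_mul (Nat.cast_nonneg _)]
      apply ENNReal.ofReal_le_ofReal
      have h3 := hJ j hj
      rw [hr]
      exact h3
    have hsum : ∑' j, volume (S (j + J)) ≠ ∞ := by
      have hs : Summable (fun j : ℕ => C / (((j + J : ℕ) : ℝ) + 1) ^ 2) := by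
        have h1 : Summable (fun j : ℕ => 1 / ((j : ℝ)) ^ 2) := Real.summable_one_div_nat_pow.2 (by norm_num)
        have h2 := (summable_nat_add_iff (J + 1)).2 h1
        refine (h2.mul_left C).congr (fun j => ?_)
        push_cast
        rw [mul_one_div, ← add_assoc]
      have h1 : ∑' j, volume (S (j + J)) ≤ ∑' j : ℕ, ENNReal.ofReal (C / (((j + J : ℕ) : ℝ) + 1) ^ 2) :=
        ENNReal.tsum_le_tsum (fun j => hvol (j + J) (by omega))
      rw [← ENNReal.ofReal_tsum_of_nonneg (fun j => by positivity) hs] at h1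
      exact ne_top_of_le_ne_top ENNReal.ofReal_ne_top h1
    have hae := ae_eventually_notMem hsum
    filter_upwards [hae] with α hα hM
    obtain ⟨J₁, hJ₁⟩ := eventually_atTop.1 hα
    -- large denominators
    have hlog : ∀ᶠ x : ℝ in atTop, Real.log x ^ W ≤ x := by
      have h1 : Tendsto (fun x : ℝ => Real.log x ^ W / x) atTop (nhds 0) := by
        have h2 := Real.isLittleO_pow_log_id_atTop (n := W)
        exact h2.tendsto_div_nhds_zero
      have h2 := h1.eventually (gt_mem_nhds (show (0 : ℝ) < 1 by norm_num))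
      filter_upwards [h2, eventually_gt_atTop (0 : ℝ)] with x h3 h4
      rw [div_lt_one h4] at h3
      exact h3.le
    obtain ⟨x₁, hx₁⟩ := eventually_atTop.1 hlog
    obtain ⟨q₁, hq₁⟩ := exists_nat_ge x₁
    obtain ⟨q₀, hq₀⟩ : ∃ q₀, q₀ = q₁ + 2 ^ (J₁ + J + 1) + 1 := ⟨_, rfl⟩
    apply approx_finite d W M α hM q₀ _ (fun z hz => hz.1)
    rintro ⟨p, q⟩ ⟨⟨hq1, hap⟩, m, hm1, hm2, hVm⟩
    simp only at hq1 hap hm2 hVm ⊢
    by_contra hcon
    rw [not_le] at hcon
    have hqq : q₁ ≤ q := by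
      have : 1 ≤ 2 ^ (J₁ + J + 1) := Nat.one_le_pow _ _ (by norm_num)
      omega
    obtain ⟨j, hj⟩ : ∃ j, j = Nat.log 2 q := ⟨_, rfl⟩
    have hj1 : 2 ^ j ≤ q := by rw [hj]; exact Nat.pow_log_le_self 2 (by omega)
    have hj2 : q < 2 ^ (j + 1) := by rw [hj]; exact Nat.lt_pow_succ_log_self (by norm_num) q
    have hjJ : J₁ + J ≤ j := by
      by_contra h
      have : 2 ^ (j + 1) ≤ 2 ^ (J₁ + J + 1) := Nat.pow_le_pow_right (by norm_num) (by omega)
      omega
    have hq0r : (0 : ℝ) < q := by exact_mod_cast (by omega : 0 < q)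
    have hq1r : (1 : ℝ) ≤ q := by exact_mod_cast hq1
    have hlq0 : 0 ≤ Real.log q := Real.log_nonneg hq1r
    have hlq : Real.log q ≤ (j : ℝ) + 1 := by
      have h1 : Real.log q ≤ Real.log (((2 ^ (j + 1) : ℕ)) : ℝ) :=
        Real.log_le_log hq0r (by exact_mod_cast hj2.le)
      push_cast at h1
      rw [Real.log_pow] at h1
      have h2 := Real.log_two_lt_d9
      have h3 : (0 : ℝ) ≤ (j : ℝ) + 1 := by positivity
      push_cast at h1
      nlinarith
    have hlqW : Real.log q ^ W ≤ ((j : ℝ) + 1) ^ W := pow_le_pow_left₀ hlq0 hlq W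
    have hlqW' : Real.log q ^ W ≤ (((j + 1) ^ W : ℕ) : ℝ) := by push_cast; exact hlqW
    have hqd : (q : ℝ) ≤ (q : ℝ) ^ (1 + 1 / (d : ℝ)) := by
      conv_lhs => rw [← Real.rpow_one (q : ℝ)]
      apply Real.rpow_le_rpow_of_exponent_le hq1r
      have : (0 : ℝ) ≤ 1 / (d : ℝ) := by positivity
      linarith
    -- the point is in one of the boxes
    have hmem : α ∈ S j := by
      rw [hS]
      simp only [Set.mem_iUnion]
      refine ⟨Fin.cons q (fun i => (p i).natAbs), ?_, ?_⟩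
      · rw [mem_bad]
        constructor
        · intro i
          refine Fin.cases ?_ (fun i => ?_) i
          · rw [Fin.cons_zero]
            exact hj2.le.trans (Nat.le_mul_of_pos_left _ (by omega))
          · rw [Fin.cons_succ]
            have h1 := hap i
            have h2 : Real.log q ^ W / (q : ℝ) ^ (1 + 1 / (d : ℝ)) ≤ 1 := by
              rw [div_le_one (by positivity)]
              refine le_trans (hx₁ q ?_) hqd
              refine hq₁.trans ?_
              exact_mod_cast hqq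
            have h3 : |(p i : ℝ) / q| ≤ M + 1 := by
              have h4 : |(p i : ℝ) / q| ≤ |α i| + |α i - p i / q| := by
                have := abs_sub_abs_le_abs_sub ((p i : ℝ) / q) (α i)
                rw [abs_sub_comm] at this
                linarith
              have h5 := hM i
              linarith
            rw [abs_div, abs_of_pos hq0r, div_le_iff₀ hq0r] at h3
            have h4 : |(p i : ℝ)| ≤ (((M + 1) * 2 ^ (j + 1) : ℕ) : ℝ) := by
              push_cast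
              refine h3.trans ?_
              apply mul_le_mul_of_nonneg_left _ (by positivity)
              exact_mod_cast hj2.le
            rw [← Int.cast_abs, Int.abs_eq_natAbs] at h4
            exact_mod_cast h4
        · right
          exact ⟨m, mem_Icc.2 ⟨hm1, by exact_mod_cast hm2.trans hlqW'⟩, hVm⟩
      · intro i
        rw [Fin.cons_succ, Fin.cons_zero]
        have e : (((p i).natAbs : ℕ) : ℝ) / (q : ℝ) = |(p i : ℝ) / q| := by
          rw [abs_div, abs_of_pos hq0r, Nat.cast_natAbs, Int.cast_abs]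
        rw [e]
        refine (abs_abs_sub_abs_le_abs_sub _ _).trans ((hap i).trans ?_)
        rw [hr]
        simp only
        apply div_le_div₀ (by positivity) hlqW (by positivity)
        apply Real.rpow_le_rpow (by positivity) _ (by positivity)
        exact_mod_cast hj1
    have h1 := hJ₁ (j - J) (by omega)
    rw [Nat.sub_add_cancel (by omega)] at h1
    exact h1 hmem
  have hall := ae_all_iff.2 key
  filter_upwards [hall] with α hα
  obtain ⟨M, hM⟩ := exists_nat_ge ‖α‖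
  refine hα M (fun i => ?_)
  have h1 := norm_le_pi_norm α i
  rw [Real.norm_eq_abs] at h1
  exact h1.trans hM

end Run7.h251.SP
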