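import Pool.Agent.Run7.h18.MK.Sys4
import Pool.Agent.Run7.h251.SP.Vec

/-! The estimate for initial windows, from the theorem on systems at prime arguments of project MK. -/

set_option autoImplicit false

namespace Run7.h251.SP

open Finset Filter Topology Polynomial

theorem eval_negX (a : ℕ) (m : ℕ) : (a : ℤ) + (-X : ℤ[X]).eval (m : ℤ) = (a : ℤ) - m := by
  rw [eval_neg, eval_X]
  ring

theorem series_dens {k : ℕ} (a : Fin k → ℕ) (z : ℕ) : series a z =
    Pool.Agent.Run7.h18.MK.dens (X * Pool.Agent.Run7.h18.MK.gP (fun _ => (-X : ℤ[X])) a) (k + 1) z := by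
  have hroot : ∀ p : ℕ, roots a p = Pool.Agent.H373R2.T7.nuB
      (Pool.Agent.Run7.h18.MK.Rt (X * Pool.Agent.Run7.h18.MK.gP (fun _ => (-X : ℤ[X])) a) 0) p := by
    intro p
    unfold roots Pool.Agent.H373R2.T7.nuB Pool.Agent.Run7.h18.MK.Rt
    simp only [eval_mul, eval_X, Pool.Agent.Run7.h18.MK.gP_eval, zero_add, eval_neg, ← sub_eq_add_neg]
  unfold series fac Pool.Agent.Run7.h18.MK.dens Pool.Agent.H373R2.T7.Vz Pool.Agent.H373R2.T7.pz
  rw [prod_div_distrib, prod_pow, div_eq_inv_mul, inv_pow]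
  congr 1
  exact prod_congr rfl fun p _ => by rw [hroot]

theorem series_le {k : ℕ} (a : Fin k → ℕ) (z : ℕ) : series a z ≤ (Pool.Agent.H373R2.T7.Vz z)⁻¹ ^ (k + 1) := by
  have h1 : (Pool.Agent.H373R2.T7.Vz z)⁻¹ ^ (k + 1) =
      ∏ p ∈ (Icc 1 z).filter Nat.Prime, 1 / (1 - 1 / (p : ℝ)) ^ (k + 1) := by
    unfold Pool.Agent.H373R2.T7.Vz Pool.Agent.H373R2.T7.pz
    rw [prod_div_distrib, prod_const_one, prod_pow, inv_pow, one_div]
  rw [h1]
  unfold series
  apply Finset.prod_le_prod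
  · intro p hp
    exact fac_nonneg a (mem_filter.1 hp).2
  · intro p hp
    have hpp := (mem_filter.1 hp).2
    have h2 : (2 : ℝ) ≤ p := by exact_mod_cast hpp.two_le
    unfold fac
    apply div_le_div_of_nonneg_right
    · have : (0 : ℝ) ≤ (roots a p : ℝ) / p := by positivity
      linarith
    · apply pow_nonneg
      rw [sub_nonneg, div_le_one (by linarith)]
      linarith

theorem input (k : ℕ) (hk : 1 ≤ k) (U : ℕ) : Input k U := by
  classical
  obtain ⟨C, B, h⟩ := Pool.Agent.Run7.h18.MK.sysp_fin k 1 0 U hk le_rfl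
  refine ⟨C, B, fun E => ?_⟩
  obtain ⟨N₁, h⟩ := h E
  obtain ⟨N₂, hVz⟩ := Pool.Agent.H373R2.T7.Vz_inv_small E
  obtain ⟨N₃, hl⟩ := log_ge 2
  refine ⟨N₁ + N₂ + N₃, fun N hN z hz1 hz2 => ?_⟩
  have hl := hl N (by omega)
  obtain ⟨Ex, hE1, hE2⟩ := h N (by omega) z hz1 hz2
  refine ⟨Ex, hE1, fun a ha haE => ⟨?_, fun x hx1 hx2 => ?_⟩⟩
  · refine (series_le a z).trans ?_
    have hz : 1 ≤ z := by
      have h1 : (1 : ℝ) ≤ z := (one_le_pow₀ (by linarith)).trans hz1
      exact_mod_cast h1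
    apply pow_le_pow_left₀ _ (hVz N (by omega) z hz hz2)
    exact (inv_pos.2 (Pool.Agent.H373R2.T7.Vz_pos z)).le
  · have hF : ∀ i : Fin k, 1 ≤ ((fun _ : Fin k => (-X : ℤ[X])) i).natDegree ∧
        ((fun _ : Fin k => (-X : ℤ[X])) i).natDegree ≤ 1 ∧
        ∀ j, |((((fun _ : Fin k => (-X : ℤ[X])) i).coeff j : ℤ) : ℝ)| ≤ Real.log N ^ 0 := by
      intro i
      simp only [natDegree_neg, natDegree_X, coeff_neg, pow_zero]
      refine ⟨le_rfl, le_rfl, fun j => ?_⟩
      rw [coeff_X]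
      split_ifs <;> simp
    obtain ⟨-, h2⟩ := hE2 a ha haE (fun _ => (-X : ℤ[X])) hF
    obtain ⟨h3, h4⟩ := h2 x (by
      intro i
      simp only [natDegree_neg, natDegree_X, pow_one]
      exact ⟨hx1, hx2⟩)
    rw [← series_dens] at h4
    have hc : count a 0 x = ∑ m ∈ Icc 1 x, Pool.Agent.R460.SQ.thp m *
        ∏ i, Pool.Agent.R460.SQ.thp ((a i : ℤ) + (-X : ℤ[X]).eval (m : ℤ)).toNat := by
      unfold count
      have e0 : Ioc 0 x = Icc 1 x := by
        ext m
        rw [mem_Ioc, mem_Icc]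
        omega
      rw [e0, sum_filter]
      refine sum_congr rfl fun m _ => ?_
      have e1 : ∀ i, ((a i : ℤ) + (-X : ℤ[X]).eval (m : ℤ)).toNat = a i - m := by
        intro i
        rw [eval_negX]
        omega
      simp only [e1]
      unfold Pool.Agent.R460.SQ.thp
      rw [prod_ite_zero]
      simp only [mem_univ, true_imp_iff]
      by_cases h7 : m.Prime
      · by_cases h8 : ∀ i, (a i - m).Prime
        · rw [if_pos ⟨h7, h8⟩, if_pos h7, if_pos h8]
        · rw [if_neg (fun h => h8 h.2), if_neg h8, mul_zero]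
      · rw [if_neg (fun h => h7 h.1), if_neg h7, zero_mul]
    rw [hc]
    exact h4

theorem sparse_good (k : ℕ) (hk : 1 ≤ k) (δ : ℝ) (hδ : 0 < δ) (W : ℕ) : Sparse k (fun a => Good δ W a) :=
  sparse k hk (input k hk) δ hδ W

end Run7.h251.SP
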