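import Pool.Agent.Run7.h251.SP.App
import Pool.Agent.Run7.h469.GA.Main

/-! Single numbers: thin exceptional sets and numbers near small combinations. -/

set_option autoImplicit false

namespace Run7.h251.SP

open Finset Filter Topology
open Run7.h469.GA (Thin)

theorem thin_of_sparse {V : (Fin 1 → ℕ) → Prop} (hV : Sparse 1 V) : Thin (fun n => V (fun _ : Fin 1 => n)) := by
  classical
  intro A
  obtain ⟨X₀, h⟩ := hV A
  refine ⟨X₀, fun X hX => ?_⟩
  have h1 := h X hX (((Icc 1 X).filter (fun n => ¬ V (fun _ : Fin 1 => n))).image (fun n => fun _ : Fin 1 => n)) (by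
    intro a ha
    rw [mem_image] at ha
    obtain ⟨n, hn, rfl⟩ := ha
    rw [mem_filter, mem_Icc] at hn
    exact ⟨fun _ => hn.1, hn.2⟩)
  rw [card_image_of_injective, pow_one] at h1
  · exact h1
  · intro a b hab
    exact congrFun hab 0

theorem sparse_imp {k : ℕ} (hk : 1 ≤ k) {P Q : (Fin k → ℕ) → Prop} (hP : Sparse k P) (n₀ : ℕ)
    (h : ∀ a, n₀ ≤ top a → P a → Q a) : Sparse k Q := by
  classical
  intro A
  obtain ⟨X₁, h1⟩ := hP (A + 1)
  obtain ⟨X₂, h2⟩ := log_pow_le (A + 1) 1 one_pos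
  obtain ⟨X₃, h3⟩ := log_ge ((n₀ : ℝ) ^ k + 2)
  refine ⟨X₁ + X₂ + X₃ + 1, fun X hX E hE => ?_⟩
  have h1 := h1 X (by omega)
  have h2 := h2 X (by omega)
  have h3 := h3 X (by omega)
  rw [Real.rpow_one] at h2
  obtain ⟨L, hL⟩ : ∃ L, L = Real.log (X : ℝ) := ⟨_, rfl⟩
  rw [← hL] at h1 h2 h3 ⊢
  have hn0 : (0 : ℝ) ≤ (n₀ : ℝ) ^ k := by positivity
  have hL0 : 0 < L := by linarith
  have hX1 : (1 : ℝ) ≤ X := by exact_mod_cast (by omega : 1 ≤ X)
  have hX0 : (0 : ℝ) < X := by linarith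
  have h1 := h1 (E.filter (fun a => ¬ P a)) (fun a ha => by
    rw [mem_filter] at ha
    exact ⟨(hE a ha.1).1, ha.2⟩)
  have hsub : E ⊆ Fintype.piFinset (fun _ : Fin k => Icc 1 n₀) ∪ E.filter (fun a => ¬ P a) := by
    intro a ha
    rw [mem_union, mem_filter, Fintype.mem_piFinset]
    obtain ⟨g1, g2⟩ := hE a ha
    by_cases h4 : n₀ ≤ top a
    · exact Or.inr ⟨ha, fun h5 => g2 (h a h4 h5)⟩
    · left
      intro i
      have := le_top a i
      rw [mem_Icc]
      exact ⟨(g1 i).1, by omega⟩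
  have h4 := (card_le_card hsub).trans (card_union_le _ _)
  rw [Fintype.card_piFinset, prod_const, card_univ, Fintype.card_fin, Nat.card_Icc, Nat.add_sub_cancel] at h4
  have h5 : (E.card : ℝ) ≤ (n₀ : ℝ) ^ k + (E.filter (fun a => ¬ P a)).card := by exact_mod_cast h4
  have h7 : L ^ (A + 1) ≤ (X : ℝ) ^ k := h2.trans (le_self_pow₀ hX1 (by omega))
  have h6 : (n₀ : ℝ) ^ k ≤ (n₀ : ℝ) ^ k * (X ^ k / L ^ (A + 1)) := by
    apply le_mul_of_one_le_right hn0
    rw [one_le_div (by positivity)]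
    exact h7
  calc (E.card : ℝ) ≤ ((n₀ : ℝ) ^ k + 1) * (X ^ k / L ^ (A + 1)) := by linarith
    _ ≤ L * (X ^ k / L ^ (A + 1)) := mul_le_mul_of_nonneg_right (by linarith) (by positivity)
    _ = _ := by
      rw [pow_succ]
      field_simp

theorem sparse_and {k : ℕ} {P Q : (Fin k → ℕ) → Prop} (hP : Sparse k P) (hQ : Sparse k Q) :
    Sparse k (fun a => P a ∧ Q a) := by
  classical
  intro A
  obtain ⟨X₁, h1⟩ := hP (A + 1)
  obtain ⟨X₂, h2⟩ := hQ (A + 1)
  obtain ⟨X₃, h3⟩ := log_ge 2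
  refine ⟨X₁ + X₂ + X₃, fun X hX E hE => ?_⟩
  have h1 := h1 X (by omega) (E.filter (fun a => ¬ P a)) (fun a ha => by
    rw [mem_filter] at ha
    exact ⟨(hE a ha.1).1, ha.2⟩)
  have h2 := h2 X (by omega) (E.filter (fun a => ¬ Q a)) (fun a ha => by
    rw [mem_filter] at ha
    exact ⟨(hE a ha.1).1, ha.2⟩)
  have h3 := h3 X (by omega)
  obtain ⟨L, hL⟩ : ∃ L, L = Real.log (X : ℝ) := ⟨_, rfl⟩
  rw [← hL] at h1 h2 h3 ⊢
  have hL0 : 0 < L := by linarith
  have hsub : E ⊆ E.filter (fun a => ¬ P a) ∪ E.filter (fun a => ¬ Q a) := by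
    intro a ha
    rw [mem_union, mem_filter, mem_filter]
    have := (hE a ha).2
    tauto
  have h4 := (card_le_card hsub).trans (card_union_le _ _)
  have h5 : (E.card : ℝ) ≤ ((E.filter (fun a => ¬ P a)).card : ℝ) + (E.filter (fun a => ¬ Q a)).card := by
    exact_mod_cast h4
  calc (E.card : ℝ) ≤ 2 * (X ^ k / L ^ (A + 1)) := by linarith
    _ ≤ L * (X ^ k / L ^ (A + 1)) := mul_le_mul_of_nonneg_right h3 (by positivity)
    _ = _ := by
      rw [pow_succ]
      field_simp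

theorem good_mono {k : ℕ} {δ : ℝ} {W : ℕ} {a : Fin k → ℕ} (hM : 3 ≤ top a) (h : Good δ (W + 1) a) : Good δ W a := by
  obtain ⟨h, h1, h2⟩ := h
  refine ⟨h, h1, fun y y' hy h3 h4 => (h2 y y' hy h3 h4).trans ?_⟩
  have hM3 : (3 : ℝ) ≤ top a := by exact_mod_cast hM
  have h5 : 1 ≤ Real.log (top a) := by
    rw [Real.le_log_iff_exp_le (by linarith)]
    exact Real.exp_one_lt_d9.le.trans (by linarith)
  apply div_le_div_of_nonneg_left (Nat.cast_nonneg _) (by positivity)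
  exact pow_le_pow_right₀ h5 (by omega)

end Run7.h251.SP
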