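import Pool.Agent.Run7.h251.SP.App

/-! One prime in the windows `(√a_i, 4 √a_i)` of all coordinates. -/

set_option autoImplicit false

namespace Run7.h251.SP

open Finset Filter Topology

theorem rivera (k : ℕ) : ∃ M₀ : ℕ, ∀ a : Fin k → ℕ, M₀ ≤ top a → Admissible a → Good (1 / 12) 2 a →
    (∀ i j, a i ≤ 15 * a j) → ∃ p : ℕ, p.Prime ∧ ∀ i, Real.sqrt (a i) < p ∧ (p : ℝ) < 4 * Real.sqrt (a i) ∧ (a i - p).Prime := by
  obtain ⟨M₀, hM₀⟩ := exists_common k 1 (1 / 12)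
  obtain ⟨n₁, h1⟩ := log_ge 200
  obtain ⟨n₂, h2⟩ := log_pow_le 2 (5 / 12) (by norm_num)
  refine ⟨M₀ + n₁ + n₂ + 1000000, fun a hM hadm hg hbal => ?_⟩
  obtain ⟨n, hn⟩ : ∃ n, n = top a := ⟨_, rfl⟩
  have h3 := hM₀ a hadm hg (by omega)
  rw [← hn] at hM h3
  have h1 := h1 n (by omega)
  have h2 := h2 n (by omega)
  have hn0 : (0 : ℝ) < n := by exact_mod_cast (by omega : 0 < n)
  have hn100 : (1000000 : ℝ) ≤ n := by exact_mod_cast (by omega : 1000000 ≤ n)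
  obtain ⟨s, hs⟩ : ∃ s, s = Real.sqrt n := ⟨_, rfl⟩
  have hs0 : 0 ≤ s := by rw [hs]; exact Real.sqrt_nonneg _
  have hss : s * s = n := by rw [hs]; exact Real.mul_self_sqrt hn0.le
  have hs10 : 1000 ≤ s := by nlinarith
  have hsr : s = (n : ℝ) ^ (1 / 2 : ℝ) := by rw [hs, Real.sqrt_eq_rpow]
  obtain ⟨y, hy⟩ : ∃ y, y = Nat.sqrt n + 1 := ⟨_, rfl⟩
  have hy1 : s < y := by
    rw [hs, Real.sqrt_lt' (by rw [hy]; positivity), hy]
    exact_mod_cast Nat.lt_succ_sqrt' n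
  have hy2 : (y : ℝ) ≤ s + 1 := by
    rw [hy]
    push_cast
    have : ((Nat.sqrt n : ℕ) : ℝ) ≤ s := by rw [hs]; exact Real.nat_sqrt_le_real_sqrt
    linarith
  -- `y' = y + y / 50`
  obtain ⟨w, hw⟩ : ∃ w, w = y / 50 := ⟨_, rfl⟩
  have hw1 : 50 * w ≤ y := by rw [hw]; exact Nat.mul_div_le y 50
  have hw2 : y < 50 * w + 50 := by omega
  have hw1r : 50 * (w : ℝ) ≤ y := by exact_mod_cast hw1
  have hw2r : (y : ℝ) < 50 * w + 50 := by exact_mod_cast hw2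
  obtain ⟨p, hp, hp1, hp2⟩ := h3 y (y + w) (by omega) (by
      push_cast
      have : (n : ℝ) ^ ((1 : ℝ) / 3 + 1 / 12) ≤ (n : ℝ) ^ (1 / 2 : ℝ) :=
        Real.rpow_le_rpow_of_exponent_le (by linarith) (by norm_num)
      rw [← hsr] at this
      have hw0 : (0 : ℝ) ≤ w := Nat.cast_nonneg _
      linarith) (by
      push_cast
      have e : (n : ℝ) ^ ((1 : ℝ) - 1 / 12) = s * (n : ℝ) ^ (5 / 12 : ℝ) := by
        rw [hsr, ← Real.rpow_add hn0]
        norm_num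
      rw [e]
      have h4 : (4 : ℝ) ≤ (n : ℝ) ^ (5 / 12 : ℝ) := by nlinarith
      nlinarith) (by
      push_cast
      rw [pow_one, div_le_iff₀ (by linarith)]
      have hw0 : (0 : ℝ) ≤ w := Nat.cast_nonneg _
      nlinarith)
  rw [mem_Ioc] at hp
  have hpr1 : (y : ℝ) < p := by exact_mod_cast hp.1
  have hpr2 : (p : ℝ) ≤ y + w := by exact_mod_cast hp.2
  refine ⟨p, hp1, fun i => ⟨?_, ?_, hp2 i⟩⟩
  · have h4 : (a i : ℝ) ≤ n := by
      rw [hn]
      exact_mod_cast le_top a i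
    have h5 := Real.sqrt_le_sqrt h4
    rw [← hs] at h5
    linarith
  · -- `n ≤ 15 a_i`
    have h4 : (n : ℝ) ≤ 15 * a i := by
      rw [hn]
      have : top a ≤ 15 * a i := top_le a fun j => hbal j i
      exact_mod_cast this
    have h5 : s ≤ Real.sqrt (15 * a i) := by rw [hs]; exact Real.sqrt_le_sqrt h4
    rw [Real.sqrt_mul (by norm_num)] at h5
    have h6 : Real.sqrt 15 ≤ 3.873 := by
      rw [Real.sqrt_le_left (by norm_num)]
      norm_num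
    have h7 : 0 ≤ Real.sqrt (a i : ℝ) := Real.sqrt_nonneg _
    have h8 : s ≤ 3.873 * Real.sqrt (a i) := h5.trans (mul_le_mul_of_nonneg_right h6 h7)
    nlinarith

end Run7.h251.SP
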