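import Pool.Agent.Run7.h251.SP.Vec

/-! Good tuples: existence of primes in all windows. -/

set_option autoImplicit false

namespace Run7.h251.SP

open Finset Filter Topology

/-- for no prime are all residues excluded -/
def Admissible {k : ℕ} (a : Fin k → ℕ) : Prop := ∀ p : ℕ, p.Prime → roots a p < p

/-- an odd prime `p ≤ k + 1` does not exist or divides all coordinates -/
theorem admissible_of_dvd {k : ℕ} (a : Fin k → ℕ) (h : ∀ p : ℕ, p.Prime → p ≤ k + 1 → ∀ i, p ∣ a i) : Admissible a := by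
  intro p hp
  rcases Nat.lt_or_ge (k + 1) p with h1 | h1
  · exact (roots_le a hp).trans_lt h1
  · have h2 := h p hp h1
    have hpi : Prime (p : ℤ) := Nat.prime_iff_prime_int.1 hp
    unfold roots
    have h3 : (range p).filter (fun r : ℕ => (p : ℤ) ∣ (r : ℤ) * ∏ i, ((a i : ℤ) - (r : ℤ))) ⊆ (range p).erase 1 := by
      intro r hr
      rw [mem_filter] at hr
      rw [mem_erase]
      refine ⟨?_, hr.1⟩
      rintro rfl
      rcases hpi.dvd_or_dvd hr.2 with h4 | h4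
      · exact hp.one_lt.ne' (Nat.dvd_one.1 (Int.natCast_dvd_natCast.1 h4))
      · obtain ⟨i, -, h5⟩ := (Prime.dvd_finsetProd_iff hpi _).1 h4
        have h6 : (p : ℤ) ∣ (a i : ℤ) := Int.natCast_dvd_natCast.2 (h2 i)
        have h7 : (p : ℤ) ∣ 1 := by
          have := dvd_sub h6 h5
          simpa using this
        have := Int.eq_one_of_dvd_one (by positivity) h7
        exact hp.one_lt.ne' (by exact_mod_cast this)
    have h4 := card_le_card h3
    rw [card_erase_of_mem (mem_range.2 hp.one_lt), card_range] at h4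
    have := hp.pos
    omega

/-- a good admissible tuple has a common prime in every window -/
theorem exists_common (k W : ℕ) (δ : ℝ) : ∃ M₀ : ℕ, ∀ a : Fin k → ℕ, Admissible a → Good δ (W + 1) a → M₀ ≤ top a →
    ∀ y y' : ℕ, y ≤ y' → ((top a : ℕ) : ℝ) ^ (1 / 3 + δ) ≤ y' → (y' : ℝ) ≤ ((top a : ℕ) : ℝ) ^ (1 - δ) →
      (y' : ℝ) / Real.log (top a) ^ W ≤ (y' : ℝ) - y → ∃ p ∈ Ioc y y', p.Prime ∧ ∀ i, (a i - p).Prime := by
  have hlow := low_pos k
  obtain ⟨M₁, hM₁⟩ := log_ge (1 / low k + 1)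
  refine ⟨M₁ + 1, fun a hadm hg hM y y' hyy h1 h2 h3 => ?_⟩
  obtain ⟨h, hh, hmain⟩ := hg
  obtain ⟨M, hMd⟩ : ∃ M, M = top a := ⟨_, rfl⟩
  rw [← hMd] at hM h1 h2 h3 hmain
  have hlog := hM₁ M (by omega)
  obtain ⟨L, hL⟩ : ∃ L, L = Real.log (M : ℝ) := ⟨_, rfl⟩
  have hmain := hmain y y' hyy h1 h2
  rw [← hL] at hlog h3 hmain
  have hl0 : 0 < 1 / low k := by positivity
  have hL0 : 0 < L := by linarith
  have hh0 : low k ≤ h := low_le a hh hadm
  have hM0 : (0 : ℝ) < M := by exact_mod_cast (by omega : 0 < M)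
  have hy0 : (0 : ℝ) < y' := lt_of_lt_of_le (by positivity) h1
  have hcount : 0 < count a y y' := by
    have h4 := (abs_le.1 hmain).1
    have h5 : h * (y' / L ^ W) ≤ h * ((y' : ℝ) - y) := mul_le_mul_of_nonneg_left h3 (by linarith)
    have h6 : low k * (y' / L ^ W) ≤ h * (y' / L ^ W) := mul_le_mul_of_nonneg_right hh0 (by positivity)
    have h7 : (y' : ℝ) / L ^ (W + 1) < low k * (y' / L ^ W) := by
      have e : (y' : ℝ) / L ^ (W + 1) = (1 / L) * (y' / L ^ W) := by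
        rw [pow_succ]
        field_simp
      rw [e]
      apply mul_lt_mul_of_pos_right _ (by positivity)
      rw [div_lt_iff₀ hL0]
      have : low k * (1 / low k) < low k * L := mul_lt_mul_of_pos_left (by linarith) hlow
      rwa [mul_one_div_cancel hlow.ne'] at this
    linarith
  by_contra hcon
  push Not at hcon
  have : count a y y' = 0 := by
    unfold count
    rw [filter_eq_empty_iff.2, sum_empty]
    rintro p hp ⟨hp1, hp2⟩
    obtain ⟨i, hi⟩ := hcon p hp hp1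
    exact hi (hp2 i)
  linarith

theorem tup_dvd {d m : ℕ} (p : Fin d → ℤ) (q : ℕ) (hm : ∀ l : ℕ, l.Prime → l ≤ d + 2 → l ∣ m) : Admissible (tup m p q) := by
  apply admissible_of_dvd
  intro l hl hld i
  exact Dvd.dvd.mul_right (hm l hl hld) _

theorem le_top_tup {d m : ℕ} (p : Fin d → ℤ) (q : ℕ) (hm : 1 ≤ m) : q ≤ top (tup m p q) := by
  refine le_trans ?_ (le_top (tup m p q) 0)
  unfold tup
  rw [Fin.cons_zero]
  exact Nat.le_mul_of_pos_left _ hm

/-- simultaneous representations of the multiples of numerators and denominator of good approximations -/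
theorem approx_common {d : ℕ} (hd : 1 ≤ d) (δ : ℝ) (W T : ℕ)
    (hV : Sparse (d + 1) (fun a => Good δ (W + 1) a)) : ∀ᵐ α : Fin d → ℝ,
    {z : (Fin d → ℤ) × ℕ | Approx d T α z.1 z.2 ∧ ∃ m : ℕ, 1 ≤ m ∧ (m : ℝ) ≤ Real.log z.2 ^ T ∧
      (∀ l : ℕ, l.Prime → l ≤ d + 2 → l ∣ m) ∧ ∃ y y' : ℕ, y ≤ y' ∧ ((top (tup m z.1 z.2) : ℕ) : ℝ) ^ (1 / 3 + δ) ≤ y' ∧
      (y' : ℝ) ≤ ((top (tup m z.1 z.2) : ℕ) : ℝ) ^ (1 - δ) ∧
      (y' : ℝ) / Real.log (top (tup m z.1 z.2)) ^ W ≤ (y' : ℝ) - y ∧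
      ¬ ∃ p ∈ Ioc y y', p.Prime ∧ (m * z.2 - p).Prime ∧ ∀ i, (m * (z.1 i).natAbs - p).Prime}.Finite := by
  obtain ⟨M₀, hM₀⟩ := exists_common (d + 1) W δ
  filter_upwards [vec hd _ hV T] with α hα
  obtain ⟨M, hM⟩ := exists_nat_ge ‖α‖
  have hfin := approx_finite d T M α (fun i => by
    have h1 := norm_le_pi_norm α i
    rw [Real.norm_eq_abs] at h1
    exact h1.trans hM) M₀ {z : (Fin d → ℤ) × ℕ | Approx d T α z.1 z.2 ∧ z.2 ≤ M₀} (fun z hz => hz.1) (fun z hz => hz.2)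
  apply (hα.union hfin).subset
  rintro ⟨p, q⟩ ⟨h1, m, hm1, hm2, hm3, y, y', hyy, hy1, hy2, hy3, hno⟩
  simp only at h1 hm2 hy1 hy2 hy3 hno
  by_cases hq : q ≤ M₀
  · exact Or.inr ⟨h1, hq⟩
  · left
    refine ⟨h1, m, hm1, hm2, fun hg => hno ?_⟩
    obtain ⟨l, hl, hl1, hl2⟩ := hM₀ (tup m p q) (tup_dvd p q hm3) hg
      (le_trans (by omega) (le_top_tup p q hm1)) y y' hyy hy1 hy2 hy3
    refine ⟨l, hl, hl1, ?_, fun i => ?_⟩
    · have := hl2 0
      unfold tup at this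
      rwa [Fin.cons_zero] at this
    · have := hl2 i.succ
      unfold tup at this
      rwa [Fin.cons_succ] at this

/-- even numbers are admissible -/
theorem admissible_even {n : ℕ} (hn : Even n) : Admissible (fun _ : Fin 1 => n) := by
  apply admissible_of_dvd
  intro p hp h2 _
  have : p = 2 := le_antisymm h2 hp.two_le
  rw [this]
  exact hn.two_dvd

theorem top_one (n : ℕ) : top (fun _ : Fin 1 => n) = n := by
  unfold top
  simp

/-- the assertion of the question holds for good even numbers -/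
theorem question (δ : ℝ) (hδ : δ < 1 / 6) : ∃ n₀ : ℕ, ∀ n : ℕ, n₀ ≤ n → Even n → Good δ 2 (fun _ : Fin 1 => n) →
    ∃ p q : ℕ, p.Prime ∧ q.Prime ∧ p ≠ q ∧ p + q = n ∧ Real.sqrt n < p ∧ (p : ℝ) < 4 * Real.sqrt n := by
  obtain ⟨M₀, hM₀⟩ := exists_common 1 1 δ
  obtain ⟨n₁, h1⟩ := log_ge 2
  -- `4 √n ≤ n ^ (1 - δ)`
  obtain ⟨n₂, h2⟩ := log_pow_le 2 (1 / 2 - δ) (by linarith)
  refine ⟨M₀ + n₁ + n₂ + 100, fun n hn heven hg => ?_⟩
  have h1 := h1 n (by omega)
  have h2 := h2 n (by omega)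
  have hn0 : (0 : ℝ) < n := by exact_mod_cast (by omega : 0 < n)
  have hn100 : (100 : ℝ) ≤ n := by exact_mod_cast (by omega : 100 ≤ n)
  obtain ⟨s, hs⟩ : ∃ s, s = Real.sqrt n := ⟨_, rfl⟩
  have hs0 : 0 ≤ s := by rw [hs]; exact Real.sqrt_nonneg _
  have hss : s * s = n := by rw [hs]; exact Real.mul_self_sqrt hn0.le
  have hs10 : 10 ≤ s := by nlinarith
  have hsr : s = (n : ℝ) ^ (1 / 2 : ℝ) := by rw [hs, Real.sqrt_eq_rpow]
  obtain ⟨y, hy⟩ : ∃ y, y = Nat.sqrt n + 1 := ⟨_, rfl⟩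
  have hy1 : s < y := by
    rw [hs, Real.sqrt_lt' (by rw [hy]; positivity), hy]
    exact_mod_cast Nat.lt_succ_sqrt' n
  have hy2 : (y : ℝ) ≤ s + 1 := by
    rw [hy]
    push_cast
    have : ((Nat.sqrt n : ℕ) : ℝ) ≤ s := by rw [hs]; exact Real.nat_sqrt_le_real_sqrt
    linarith
  have h3 := hM₀ (fun _ : Fin 1 => n) (admissible_even heven) hg (by rw [top_one]; omega) y (2 * y) (by omega)
  rw [top_one] at h3
  obtain ⟨p, hp, hp1, hp2⟩ := h3 (by
      push_cast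
      have : (n : ℝ) ^ (1 / 3 + δ) ≤ (n : ℝ) ^ (1 / 2 : ℝ) :=
        Real.rpow_le_rpow_of_exponent_le (by linarith) (by linarith)
      rw [← hsr] at this
      linarith) (by
      push_cast
      have e : (n : ℝ) ^ (1 - δ) = s * (n : ℝ) ^ (1 / 2 - δ) := by
        rw [hsr, ← Real.rpow_add hn0]
        congr 1
        ring
      rw [e]
      have h4 : (4 : ℝ) ≤ (n : ℝ) ^ (1 / 2 - δ) := by nlinarith
      nlinarith) (by
      push_cast
      rw [pow_one, div_le_iff₀ (by linarith)]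
      nlinarith)
  rw [mem_Ioc] at hp
  have hp3 := hp2 0
  have hpr1 : (y : ℝ) < p := by exact_mod_cast hp.1
  have hpr2 : (p : ℝ) ≤ 2 * y := by exact_mod_cast hp.2
  have hpn : p ≤ n := by
    have : (p : ℝ) ≤ n := by nlinarith
    exact_mod_cast this
  refine ⟨p, n - p, hp1, hp3, ?_, by omega, by rw [← hs]; linarith, by rw [← hs]; linarith⟩
  intro heq
  have h5 : (n : ℝ) = 2 * p := by exact_mod_cast (by omega : n = 2 * p)
  nlinarith

end Run7.h251.SP
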