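import Pool.Agent.Run7.h251.SP.Ser

/-! All windows at once for almost all tuples, from the estimate for initial windows. -/

set_option autoImplicit false

namespace Run7.h251.SP

open Finset Filter Topology

/-- the sum of `log p` times the product of the `log (a i - p)` over the primes `p` of `(y, y']` for which all the
`a i - p` are primes -/
noncomputable def count {k : ℕ} (a : Fin k → ℕ) (y y' : ℕ) : ℝ :=
  ∑ p ∈ (Ioc y y').filter (fun p : ℕ => p.Prime ∧ ∀ i, (a i - p).Prime), Real.log p * ∏ i, Real.log ((a i - p : ℕ) : ℝ)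

/-- the largest coordinate -/
def top {k : ℕ} (a : Fin k → ℕ) : ℕ := (univ : Finset (Fin k)).sup a

/-- The tuple `a` of positive integers, with largest coordinate `M`: the singular series of `a` converges, to `h` say, and
for ALL windows `(y, y']` with `M ^ (1/3 + δ) ≤ y' ≤ M ^ (1 - δ)` the primes `p` of the window for which all the `a i - p`
are primes, counted with the product of the logarithms, number `h (y' - y)` up to `y' / (log M) ^ W`. -/
def Good {k : ℕ} (δ : ℝ) (W : ℕ) (a : Fin k → ℕ) : Prop :=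
  ∃ h : ℝ, Tendsto (series a) atTop (𝓝 h) ∧ ∀ y y' : ℕ, y ≤ y' → ((top a : ℕ) : ℝ) ^ (1 / 3 + δ) ≤ y' →
    (y' : ℝ) ≤ ((top a : ℕ) : ℝ) ^ (1 - δ) → |count a y y' - h * ((y' : ℝ) - y)| ≤ y' / Real.log (top a) ^ W

/-- the estimate for initial windows, for almost all tuples -/
def Input (k U : ℕ) : Prop := ∃ C B : ℕ, ∀ E : ℕ, ∃ N₀ : ℕ, ∀ N : ℕ, N₀ ≤ N → ∀ z : ℕ,
    Real.log N ^ B ≤ z → (z : ℝ) ≤ Real.log N ^ E →
    ∃ Ex : Finset (Fin k → ℕ), (Ex.card : ℝ) ≤ (N : ℝ) ^ k / Real.log N ^ U ∧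
    ∀ a ∈ Fintype.piFinset (fun _ : Fin k => Icc 1 N), a ∉ Ex → series a z ≤ Real.log N ^ (k + 1) ∧ ∀ x : ℕ,
      (N : ℝ) ^ (1 / 3 : ℝ) * Real.log N ^ C ≤ x → (x : ℝ) * Real.log N ^ C ≤ N →
      |count a 0 x - x * series a z| ≤ x / Real.log N ^ U

theorem count_sub {k : ℕ} (a : Fin k → ℕ) {y y' : ℕ} (h : y ≤ y') : count a y y' = count a 0 y' - count a 0 y := by
  unfold count
  rw [eq_sub_iff_add_eq, add_comm, ← sum_union]
  · congr 1
    ext p
    simp only [mem_filter, mem_Ioc, mem_union]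
    constructor
    · rintro (⟨h1, h2⟩ | ⟨h1, h2⟩)
      · exact ⟨⟨h1.1, by omega⟩, h2⟩
      · exact ⟨⟨by omega, h1.2⟩, h2⟩
    · rintro ⟨h1, h2⟩
      by_cases h3 : p ≤ y
      · exact Or.inl ⟨⟨h1.1, h3⟩, h2⟩
      · exact Or.inr ⟨⟨by omega, h1.2⟩, h2⟩
  · rw [disjoint_left]
    intro p h1 h2
    rw [mem_filter, mem_Ioc] at h1 h2
    omega

theorem count_nonneg {k : ℕ} (a : Fin k → ℕ) (y y' : ℕ) : 0 ≤ count a y y' :=
  sum_nonneg fun _ _ => mul_nonneg (Real.log_natCast_nonneg _) (prod_nonneg fun _ _ => Real.log_natCast_nonneg _)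

theorem count_le {k : ℕ} (a : Fin k → ℕ) (x N : ℕ) (hx : x ≤ N) (h : ∀ i, a i ≤ N) :
    count a 0 x ≤ x * Real.log N ^ (k + 1) := by
  have hL : 0 ≤ Real.log (N : ℝ) := Real.log_natCast_nonneg _
  have hlog : ∀ m : ℕ, m ≤ N → Real.log (m : ℝ) ≤ Real.log N := by
    intro m hm
    rcases Nat.eq_zero_or_pos m with h0 | h0
    · rw [h0, Nat.cast_zero, Real.log_zero]
      exact hL
    · exact Real.log_le_log (by exact_mod_cast h0) (by exact_mod_cast hm)
  unfold count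
  calc _ ≤ ∑ _p ∈ (Ioc 0 x).filter (fun p : ℕ => p.Prime ∧ ∀ i, (a i - p).Prime), Real.log N ^ (k + 1) := by
        refine sum_le_sum fun p hp => ?_
        rw [mem_filter, mem_Ioc] at hp
        rw [pow_succ']
        apply mul_le_mul (hlog p (by omega)) _ (prod_nonneg fun _ _ => Real.log_natCast_nonneg _) hL
        calc ∏ i, Real.log ((a i - p : ℕ) : ℝ) ≤ ∏ _i : Fin k, Real.log (N : ℝ) := by
              apply Finset.prod_le_prod (fun _ _ => Real.log_natCast_nonneg _)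
              intro i _
              apply hlog
              have := h i
              omega
          _ = _ := by rw [prod_const, card_univ, Fintype.card_fin]
    _ ≤ _ := by
        rw [sum_const, nsmul_eq_mul]
        apply mul_le_mul_of_nonneg_right _ (by positivity)
        have := card_filter_le (Ioc 0 x) (fun p : ℕ => p.Prime ∧ ∀ i, (a i - p).Prime)
        rw [Nat.card_Ioc] at this
        exact_mod_cast this

/-- powers of the logarithm are small -/
theorem log_pow_le (K : ℕ) (c : ℝ) (hc : 0 < c) : ∃ N₀ : ℕ, ∀ N : ℕ, N₀ ≤ N → Real.log N ^ K ≤ (N : ℝ) ^ c := by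
  have h1 := (isLittleO_log_rpow_rpow_atTop (K : ℝ) hc).bound (show (0 : ℝ) < 1 by norm_num)
  have h2 := tendsto_natCast_atTop_atTop (R := ℝ) |>.eventually h1
  obtain ⟨N₀, h3⟩ := eventually_atTop.1 h2
  refine ⟨N₀ + 1, fun N hN => ?_⟩
  have h4 := h3 N (by omega)
  have h5 : (0 : ℝ) ≤ (N : ℝ) ^ c := by positivity
  rw [Real.norm_eq_abs, Real.norm_eq_abs, one_mul, Real.rpow_natCast, abs_of_nonneg h5] at h4
  exact (le_abs_self _).trans h4

theorem log_ge (K : ℝ) : ∃ N₀ : ℕ, ∀ N : ℕ, N₀ ≤ N → K ≤ Real.log N := by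
  have h2 := (Real.tendsto_log_atTop.comp (tendsto_natCast_atTop_atTop (R := ℝ))).eventually_ge_atTop K
  obtain ⟨N₀, h3⟩ := eventually_atTop.1 h2
  exact ⟨N₀, fun N hN => h3 N hN⟩

theorem le_top {k : ℕ} (a : Fin k → ℕ) (i : Fin k) : a i ≤ top a := le_sup (f := a) (mem_univ i)

theorem top_le {k : ℕ} (a : Fin k → ℕ) {N : ℕ} (h : ∀ i, a i ≤ N) : top a ≤ N := Finset.sup_le fun i _ => h i

/-- the comparison of the partial product with the singular series -/
theorem tail_bd {k : ℕ} (a : Fin k → ℕ) (h0 : disc a ≠ 0) {h : ℝ} (hh : Tendsto (series a) atTop (𝓝 h)) {z : ℕ}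
    (hz : 2 * (k + 1) ≤ z) {L : ℝ} (hL : 1 ≤ L)
    (hD : (((disc a).natAbs.primeFactors.card : ℕ) : ℝ) ≤ 2 * ((k : ℝ) + k ^ 2) * L)
    (hz2 : 4 * ((k : ℝ) + 1) * ((k : ℝ) + k ^ 2) * L ≤ z) :
    |h - series a z| ≤ series a z * ((2 * ((k : ℝ) + 1) ^ 2 + 8 * ((k : ℝ) + 1) * ((k : ℝ) + k ^ 2)) * L / z) := by
  have h1 := limit_lower a hh hz
  have h2 := limit_upper a h0 hh hz
  have hS := series_nonneg a z
  have hk0 : (0 : ℝ) ≤ k := Nat.cast_nonneg k
  have hz0 : (0 : ℝ) < z := by exact_mod_cast (by omega : 0 < z)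
  obtain ⟨e, he⟩ : ∃ e, e = 2 * ((k : ℝ) + 1) * (disc a).natAbs.primeFactors.card / z := ⟨_, rfl⟩
  rw [← he] at h2
  have he0 : 0 ≤ e := by rw [he]; positivity
  have he2 : e ≤ 4 * ((k : ℝ) + 1) * ((k : ℝ) + k ^ 2) * L / z := by
    rw [he]
    apply div_le_div_of_nonneg_right _ hz0.le
    calc 2 * ((k : ℝ) + 1) * ((disc a).natAbs.primeFactors.card : ℝ) ≤
        2 * ((k : ℝ) + 1) * (2 * ((k : ℝ) + k ^ 2) * L) := mul_le_mul_of_nonneg_left hD (by positivity)
      _ = _ := by ring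
  have he1 : e ≤ 1 := he2.trans (by rw [div_le_one hz0]; exact hz2)
  have hexp : Real.exp e ≤ 1 + 2 * e := by
    have h3 := Real.abs_exp_sub_one_le (x := e) (by rw [abs_of_nonneg he0]; exact he1)
    have h4 := (abs_le.1 h3).2
    rw [abs_of_nonneg he0] at h4
    linarith
  have h3 : series a z * Real.exp e ≤ series a z * (1 + 2 * e) := mul_le_mul_of_nonneg_left hexp hS
  have h4 : 2 * e ≤ (2 * ((k : ℝ) + 1) ^ 2 + 8 * ((k : ℝ) + 1) * ((k : ℝ) + k ^ 2)) * L / z := by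
    have h5 : 2 * e ≤ 2 * (4 * ((k : ℝ) + 1) * ((k : ℝ) + k ^ 2) * L / z) := by linarith
    refine h5.trans ?_
    rw [mul_div_assoc', div_le_div_iff_of_pos_right hz0]
    have : 0 ≤ 2 * ((k : ℝ) + 1) ^ 2 * L := by positivity
    nlinarith
  have h5 : 2 * ((k : ℝ) + 1) ^ 2 / z ≤ (2 * ((k : ℝ) + 1) ^ 2 + 8 * ((k : ℝ) + 1) * ((k : ℝ) + k ^ 2)) * L / z := by
    rw [div_le_div_iff_of_pos_right hz0]
    have a1 : 0 ≤ 2 * ((k : ℝ) + 1) ^ 2 * (L - 1) := by
      have : 0 ≤ L - 1 := by linarith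
      positivity
    have a2 : 0 ≤ 8 * ((k : ℝ) + 1) * ((k : ℝ) + k ^ 2) * L := by positivity
    linarith
  rw [abs_le]
  constructor
  · have := mul_le_mul_of_nonneg_left h5 hS
    linarith
  · have := mul_le_mul_of_nonneg_left h4 hS
    linarith

theorem few (k : ℕ) (hk : 1 ≤ k) (hin : ∀ U, Input k U) (δ : ℝ) (hδ : 0 < δ) (W U : ℕ) : ∃ N₀ : ℕ, ∀ N : ℕ, N₀ ≤ N →
    ∃ Ex : Finset (Fin k → ℕ), (Ex.card : ℝ) ≤ (N : ℝ) ^ k / Real.log N ^ (U + 1) ∧
    ∀ a ∈ Fintype.piFinset (fun _ : Fin k => Icc 1 N), a ∉ Ex → Function.Injective a →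
      (N : ℝ) / Real.log N ^ (U + 1) ≤ top a → Good δ W a := by
  classical
  obtain ⟨V, hV⟩ : ∃ V, V = U + W + 1 := ⟨_, rfl⟩
  obtain ⟨C, B, hin⟩ := hin V
  obtain ⟨N₁, hin⟩ := hin (B + V + k + 4)
  obtain ⟨ε, hε⟩ : ∃ ε, ε = δ / (2 / 3 + 2 * δ) := ⟨_, rfl⟩
  have hε0 : 0 < ε := by rw [hε]; positivity
  have hεe : ε * (2 / 3 + 2 * δ) = δ := by rw [hε]; field_simp
  obtain ⟨N₂, hl2⟩ := log_pow_le (U + 1) ε hε0
  obtain ⟨N₃, hl3⟩ := log_pow_le (C + k + 2 + V) (δ / 2) (by linarith)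
  obtain ⟨N₅, hl5⟩ := log_pow_le C δ hδ
  obtain ⟨N₄, hl4⟩ := log_ge (3 + (2 * ((k : ℝ) + 1) + 4 * ((k : ℝ) + 1) * ((k : ℝ) + k ^ 2) +
    (2 * ((k : ℝ) + 1) ^ 2 + 8 * ((k : ℝ) + 1) * ((k : ℝ) + k ^ 2))))
  obtain ⟨N₆, hl6⟩ := log_pow_le (U + 2) 1 one_pos
  refine ⟨N₁ + N₂ + N₃ + N₄ + N₅ + N₆ + 3, fun N hN => ?_⟩
  have hl2 := hl2 N (by omega)
  have hl3 := hl3 N (by omega)
  have hl4 := hl4 N (by omega)
  have hl5 := hl5 N (by omega)
  have hl6 := hl6 N (by omega)
  have hin := hin N (by omega)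
  have hN2 : 2 ≤ N := by omega
  have hN0 : (0 : ℝ) < N := by exact_mod_cast (by omega : 0 < N)
  have hN1 : (1 : ℝ) ≤ N := by exact_mod_cast (by omega : 1 ≤ N)
  have hk0 : (0 : ℝ) ≤ k := Nat.cast_nonneg k
  obtain ⟨L, hL⟩ : ∃ L, L = Real.log (N : ℝ) := ⟨_, rfl⟩
  rw [← hL] at hl2 hl3 hl4 hl5 hl6 hin ⊢
  have q1 : 0 ≤ 4 * ((k : ℝ) + 1) * ((k : ℝ) + k ^ 2) := by positivity
  have q2 : 0 ≤ 2 * ((k : ℝ) + 1) ^ 2 + 8 * ((k : ℝ) + 1) * ((k : ℝ) + k ^ 2) := by positivity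
  have hL3 : 3 ≤ L := by linarith
  have hL1 : 1 ≤ L := by linarith
  have hL0 : 0 < L := by linarith
  obtain ⟨z, hz⟩ : ∃ z : ℕ, z = ⌈L ^ (B + V + k + 3)⌉₊ := ⟨_, rfl⟩
  have hz1 : L ^ (B + V + k + 3) ≤ z := by rw [hz]; exact Nat.le_ceil _
  have hz2 : (z : ℝ) ≤ L ^ (B + V + k + 3) + 1 := by rw [hz]; exact (Nat.ceil_lt_add_one (by positivity)).le
  have hzB : L ^ B ≤ z := (pow_le_pow_right₀ hL1 (by omega)).trans hz1
  have hzE : (z : ℝ) ≤ L ^ (B + V + k + 4) := by
    refine hz2.trans ?_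
    rw [pow_succ L (B + V + k + 3)]
    have : (1 : ℝ) ≤ L ^ (B + V + k + 3) := one_le_pow₀ hL1
    nlinarith
  have hzk : L ^ (V + k + 3) ≤ z := (pow_le_pow_right₀ hL1 (by omega)).trans hz1
  have hz0 : (0 : ℝ) < z := lt_of_lt_of_le (by positivity) hzk
  obtain ⟨Ex, hE1, hE2⟩ := hin z hzB hzE
  refine ⟨Ex, hE1.trans ?_, fun a ha haE hinj htop => ?_⟩
  · apply div_le_div_of_nonneg_left (by positivity) (by positivity)
    exact pow_le_pow_right₀ hL1 (by omega)
  obtain ⟨hS, hmain⟩ := hE2 a ha haE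
  have ha1 : ∀ i, 1 ≤ a i ∧ a i ≤ N := fun i => mem_Icc.1 (Fintype.mem_piFinset.1 ha i)
  have hdisc := disc_ne a (fun i => (ha1 i).1) hinj
  obtain ⟨h, hh⟩ := exists_limit a hdisc
  have hD := card_primes_le_log a (fun i => (ha1 i).1) hinj (N := N) (by omega) (fun i => (ha1 i).2)
  rw [← hL] at hD
  -- the tail
  have hzL : L * L ≤ z := by
    refine le_trans ?_ hzk
    rw [← sq]
    exact pow_le_pow_right₀ hL1 (by omega)
  have hz3 : 2 * (k + 1) ≤ z := by
    have : 2 * ((k : ℝ) + 1) ≤ z := by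
      refine le_trans ?_ hzL
      nlinarith
    exact_mod_cast this
  have ht := tail_bd a hdisc hh hz3 hL1 hD (le_trans (mul_le_mul_of_nonneg_right (by linarith) hL0.le) hzL)
  have hS0 := series_nonneg a z
  obtain ⟨S, hSd⟩ : ∃ S, S = series a z := ⟨_, rfl⟩
  rw [← hSd] at ht hS hS0 hmain
  have ht2 : |h - S| ≤ 1 / L ^ V := by
    refine ht.trans ?_
    obtain ⟨c, hc⟩ : ∃ c, c = 2 * ((k : ℝ) + 1) ^ 2 + 8 * ((k : ℝ) + 1) * ((k : ℝ) + k ^ 2) := ⟨_, rfl⟩
    rw [← hc] at q2 hl4 ⊢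
    have hcL : c ≤ L := by linarith
    calc S * (c * L / z) ≤ L ^ (k + 1) * (L * L / L ^ (V + k + 3)) := by
          apply mul_le_mul hS _ (by positivity) (by positivity)
          apply div_le_div₀ (by positivity) _ (by positivity) hzk
          exact mul_le_mul_of_nonneg_right hcL hL0.le
      _ = 1 / L ^ V := by
          have e : L ^ (V + k + 3) = L ^ (k + 1) * (L * L) * L ^ V := by ring
          rw [e]
          field_simp
  refine ⟨h, hh, fun y y' hyy h1 h2 => ?_⟩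
  obtain ⟨M, hM⟩ : ∃ M, M = top a := ⟨_, rfl⟩
  rw [← hM] at htop h1 h2 ⊢
  have hMN : M ≤ N := by rw [hM]; exact top_le a fun i => (ha1 i).2
  have hMNr : (M : ℝ) ≤ N := by exact_mod_cast hMN
  have hML : L ≤ M := by
    refine le_trans ?_ htop
    rw [le_div_iff₀ (by positivity)]
    rw [Real.rpow_one] at hl6
    calc L * L ^ (U + 1) = L ^ (U + 2) := by ring
      _ ≤ N := hl6
  have hM0 : (0 : ℝ) < M := by linarith
  have hlM : 0 < Real.log M := Real.log_pos (by linarith)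
  have hlML : Real.log M ≤ L := by rw [hL]; exact Real.log_le_log hM0 hMNr
  -- the size of `y'`
  have hMε : (N : ℝ) ^ (1 - ε) ≤ M := by
    refine le_trans ?_ htop
    rw [le_div_iff₀ (by positivity)]
    calc (N : ℝ) ^ (1 - ε) * L ^ (U + 1) ≤ (N : ℝ) ^ (1 - ε) * (N : ℝ) ^ ε := mul_le_mul_of_nonneg_left hl2 (by positivity)
      _ = N := by
        rw [← Real.rpow_add hN0]
        simp
  have hy1 : (N : ℝ) ^ (1 / 3 + δ / 2) ≤ y' := by
    refine le_trans ?_ h1
    have e : (N : ℝ) ^ (1 / 3 + δ / 2) = ((N : ℝ) ^ (1 - ε)) ^ (1 / 3 + δ) := by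
      rw [← Real.rpow_mul hN0.le]
      congr 1
      linarith
    rw [e]
    exact Real.rpow_le_rpow (by positivity) hMε (by positivity)
  have hy2 : (y' : ℝ) ≤ (N : ℝ) ^ (1 - δ) := by
    refine h2.trans ?_
    rcases le_or_gt δ 1 with hd | hd
    · exact Real.rpow_le_rpow hM0.le hMNr (by linarith)
    · exfalso
      have b1 : (M : ℝ) ^ (1 - δ) < 1 := Real.rpow_lt_one_of_one_lt_of_neg (by linarith) (by linarith)
      have b2 : (1 : ℝ) ≤ (N : ℝ) ^ (1 / 3 + δ / 2) := Real.one_le_rpow hN1 (by positivity)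
      linarith
  have hy3 : (y' : ℝ) * L ^ C ≤ N := by
    calc (y' : ℝ) * L ^ C ≤ (N : ℝ) ^ (1 - δ) * (N : ℝ) ^ δ := mul_le_mul hy2 hl5 (by positivity) (by positivity)
      _ = N := by
        rw [← Real.rpow_add hN0]
        simp
  have hy0 : (0 : ℝ) < y' := lt_of_lt_of_le (by positivity) hy1
  have hsmall : (N : ℝ) ^ (1 / 3 : ℝ) * L ^ (C + k + 2 + V) ≤ y' := by
    refine le_trans ?_ hy1
    rw [Real.rpow_add hN0]
    exact mul_le_mul_of_nonneg_left hl3 (by positivity)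
  have hyN : (y' : ℝ) ≤ N := (le_mul_of_one_le_right hy0.le (one_le_pow₀ hL1)).trans hy3
  have hyN' : y' ≤ N := by exact_mod_cast hyN
  -- one initial window
  have one : ∀ x : ℕ, x ≤ y' → |count a 0 x - x * S| ≤ y' / L ^ V := by
    intro x hx
    have hxr : (x : ℝ) ≤ y' := by exact_mod_cast hx
    have hx0 : (0 : ℝ) ≤ x := Nat.cast_nonneg x
    by_cases hlow : (N : ℝ) ^ (1 / 3 : ℝ) * L ^ C ≤ x
    · refine (hmain x hlow ((mul_le_mul_of_nonneg_right hxr (by positivity)).trans hy3)).trans ?_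
      exact div_le_div_of_nonneg_right hxr (by positivity)
    · push Not at hlow
      have b1 := count_le a x N (hx.trans hyN') fun i => (ha1 i).2
      rw [← hL] at b1
      have b2 := count_nonneg a 0 x
      have b3 : (x : ℝ) * S ≤ x * L ^ (k + 1) := mul_le_mul_of_nonneg_left hS hx0
      have b4 : 0 ≤ (x : ℝ) * S := mul_nonneg hx0 hS0
      have b5 : (x : ℝ) * L ^ (k + 1) ≤ y' / L ^ V := by
        rw [le_div_iff₀ (by positivity)]
        refine le_trans ?_ hsmall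
        calc (x : ℝ) * L ^ (k + 1) * L ^ V ≤ ((N : ℝ) ^ (1 / 3 : ℝ) * L ^ C) * L ^ (k + 1) * L ^ V := by gcongr
          _ = (N : ℝ) ^ (1 / 3 : ℝ) * L ^ (C + k + 1 + V) := by ring
          _ ≤ _ := by
            apply mul_le_mul_of_nonneg_left _ (by positivity)
            exact pow_le_pow_right₀ hL1 (by omega)
      rw [abs_le]
      constructor <;> linarith
  have c1 := one y' le_rfl
  have c2 := one y hyy
  rw [count_sub a hyy]
  have hyr : (y : ℝ) ≤ y' := by exact_mod_cast hyy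
  have hyr0 : (0 : ℝ) ≤ y := Nat.cast_nonneg y
  have c3 : |((y' : ℝ) - y) * (S - h)| ≤ y' / L ^ V := by
    rw [abs_mul, abs_of_nonneg (by linarith : (0 : ℝ) ≤ (y' : ℝ) - y), abs_sub_comm S h]
    calc ((y' : ℝ) - y) * |h - S| ≤ y' * (1 / L ^ V) := mul_le_mul (by linarith) ht2 (abs_nonneg _) hy0.le
      _ = _ := by ring
  have c4 : |count a 0 y' - count a 0 y - h * ((y' : ℝ) - y)| ≤ 3 * (y' / L ^ V) := by
    have d1 := abs_le.1 c1
    have d2 := abs_le.1 c2
    have d3 := abs_le.1 c3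
    rw [abs_le]
    constructor
    · linarith [d1.1, d1.2, d2.1, d2.2, d3.1, d3.2]
    · linarith [d1.1, d1.2, d2.1, d2.2, d3.1, d3.2]
  refine c4.trans ?_
  calc 3 * ((y' : ℝ) / L ^ V) ≤ L * (y' / L ^ V) := mul_le_mul_of_nonneg_right hL3 (by positivity)
    _ = y' / L ^ (U + W) := by
      rw [hV, pow_succ]
      field_simp
    _ ≤ y' / L ^ W := by
      apply div_le_div_of_nonneg_left hy0.le (by positivity)
      exact pow_le_pow_right₀ hL1 (by omega)
    _ ≤ _ := by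
      apply div_le_div_of_nonneg_left hy0.le (by positivity)
      exact pow_le_pow_left₀ hlM.le hlML W

/-- all tuples of `[1, X] ^ k` but `X ^ k / (log X) ^ A`, for every `A` and all large `X`, have the property -/
def Sparse (k : ℕ) (V : (Fin k → ℕ) → Prop) : Prop := ∀ A : ℕ, ∃ X₀ : ℕ, ∀ X : ℕ, X₀ ≤ X → ∀ Ex : Finset (Fin k → ℕ),
  (∀ a ∈ Ex, (∀ i, 1 ≤ a i ∧ a i ≤ X) ∧ ¬ V a) → (Ex.card : ℝ) ≤ (X : ℝ) ^ k / Real.log X ^ A

theorem card_pair {k : ℕ} (N : ℕ) (i j : Fin k) (hij : i ≠ j) :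
    ((Fintype.piFinset (fun _ : Fin k => Icc 1 N)).filter (fun a => a i = a j)).card ≤ N ^ (k - 1) := by
  classical
  have h : ((Fintype.piFinset (fun _ : Fin k => Icc 1 N)).filter (fun a => a i = a j)).card ≤
      (Fintype.piFinset (fun l : Fin k => if l = i then ({1} : Finset ℕ) else Icc 1 N)).card := by
    apply card_le_card_of_injOn (fun a => Function.update a i 1)
    · intro a ha
      rw [mem_coe, mem_filter, Fintype.mem_piFinset] at ha
      rw [mem_coe, Fintype.mem_piFinset]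
      intro l
      simp only
      by_cases hl : l = i
      · rw [if_pos hl, hl, mem_singleton, Function.update_self]
      · rw [if_neg hl, Function.update_of_ne hl]
        exact ha.1 l
    · intro a ha b hb hab
      rw [mem_coe, mem_filter] at ha hb
      have hne : ∀ l, l ≠ i → a l = b l := by
        intro l hl
        have := congrFun hab l
        simp only [Function.update_of_ne hl] at this
        exact this
      funext l
      by_cases hl : l = i
      · rw [hl, ha.2, hb.2]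
        exact hne j hij.symm
      · exact hne l hl
  refine h.trans (le_of_eq ?_)
  rw [Fintype.card_piFinset, prod_apply_ite_eq N i]
where
  prod_apply_ite_eq {k : ℕ} (N : ℕ) (i : Fin k) :
      ∏ l : Fin k, (if l = i then ({1} : Finset ℕ) else Icc 1 N).card = N ^ (k - 1) := by
    classical
    have h1 : ∀ l ∈ (univ : Finset (Fin k)), (if l = i then ({1} : Finset ℕ) else Icc 1 N).card = if l = i then 1 else N := by
      intro l _
      split_ifs
      · exact card_singleton _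
      · rw [Nat.card_Icc, Nat.add_sub_cancel]
    rw [prod_congr rfl h1, ← mul_prod_erase univ _ (mem_univ i), if_pos rfl, one_mul]
    have h2 : ∀ l ∈ univ.erase i, (if l = i then 1 else N) = N := fun l hl => if_neg (ne_of_mem_erase hl)
    rw [prod_congr rfl h2, prod_const, card_erase_of_mem (mem_univ i), card_univ, Fintype.card_fin]

theorem sparse (k : ℕ) (hk : 1 ≤ k) (hin : ∀ U, Input k U) (δ : ℝ) (hδ : 0 < δ) (W : ℕ) :
    Sparse k (fun a => Good δ W a) := by
  classical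
  intro U
  obtain ⟨N₁, h1⟩ := few k hk hin δ hδ W U
  obtain ⟨N₂, h2⟩ := log_pow_le (U + 2) 1 one_pos
  obtain ⟨N₃, h3⟩ := log_ge (4 + (k : ℝ) ^ 2)
  refine ⟨N₁ + N₂ + N₃ + 3, fun N hN E hE => ?_⟩
  obtain ⟨Ex, hE1, hE2⟩ := h1 N (by omega)
  have h2 := h2 N (by omega)
  have h3 := h3 N (by omega)
  rw [Real.rpow_one] at h2
  have hN2 : 2 ≤ N := by omega
  have hN0 : (0 : ℝ) < N := by exact_mod_cast (by omega : 0 < N)
  obtain ⟨L, hL⟩ : ∃ L, L = Real.log (N : ℝ) := ⟨_, rfl⟩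
  rw [← hL] at hE1 hE2 h2 h3 ⊢
  have hk2 : (0 : ℝ) ≤ (k : ℝ) ^ 2 := by positivity
  have hL4 : 4 ≤ L := by linarith
  have hL1 : 1 ≤ L := by linarith
  have hL0 : 0 < L := by linarith
  obtain ⟨n, hn⟩ : ∃ n : ℕ, n = ⌊(N : ℝ) / L ^ (U + 1)⌋₊ := ⟨_, rfl⟩
  have hnr : (n : ℝ) ≤ N / L ^ (U + 1) := by rw [hn]; exact Nat.floor_le (by positivity)
  have hsub : E ⊆ Ex ∪ (Fintype.piFinset (fun _ : Fin k => Icc 1 n) ∪
      (univ : Finset (Fin k × Fin k)).biUnion (fun x => if x.1 = x.2 then ∅ else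
        (Fintype.piFinset (fun _ : Fin k => Icc 1 N)).filter (fun a => a x.1 = a x.2))) := by
    intro a ha
    obtain ⟨g1, g2⟩ := hE a ha
    rw [mem_union, mem_union]
    by_contra hcon
    push Not at hcon
    obtain ⟨c1, c2, c3⟩ := hcon
    have hmem : a ∈ Fintype.piFinset (fun _ : Fin k => Icc 1 N) := Fintype.mem_piFinset.2 fun i => mem_Icc.2 (g1 i)
    apply g2
    apply hE2 a hmem c1
    · intro i j hij
      by_contra hne
      apply c3
      rw [mem_biUnion]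
      refine ⟨(i, j), mem_univ _, ?_⟩
      simp only
      rw [if_neg hne]
      exact mem_filter.2 ⟨hmem, hij⟩
    · by_contra hlt
      push Not at hlt
      apply c2
      rw [Fintype.mem_piFinset]
      intro i
      rw [mem_Icc]
      refine ⟨(g1 i).1, ?_⟩
      rw [hn]
      apply Nat.le_floor
      refine le_trans ?_ hlt.le
      exact_mod_cast le_top a i
  have hc := (card_le_card hsub).trans ((card_union_le _ _).trans (Nat.add_le_add_left (card_union_le _ _) _))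
  have hc1 : ((Fintype.piFinset (fun _ : Fin k => Icc 1 n)).card : ℝ) ≤ N ^ k / L ^ (U + 1) := by
    rw [Fintype.card_piFinset, prod_const, card_univ, Fintype.card_fin, Nat.card_Icc, Nat.add_sub_cancel, Nat.cast_pow]
    calc (n : ℝ) ^ k ≤ (N / L ^ (U + 1)) ^ k := pow_le_pow_left₀ (Nat.cast_nonneg n) hnr k
      _ = (N : ℝ) ^ k / (L ^ (U + 1)) ^ k := div_pow _ _ _
      _ ≤ N ^ k / L ^ (U + 1) := by
        apply div_le_div_of_nonneg_left (by positivity) (by positivity)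
        exact le_self_pow₀ (one_le_pow₀ hL1) (by omega)
  have hc2 : (((univ : Finset (Fin k × Fin k)).biUnion (fun x => if x.1 = x.2 then ∅ else
        (Fintype.piFinset (fun _ : Fin k => Icc 1 N)).filter (fun a => a x.1 = a x.2))).card : ℝ) ≤
        N ^ k / L ^ (U + 1) := by
    have d1 : ((univ : Finset (Fin k × Fin k)).biUnion (fun x => if x.1 = x.2 then ∅ else
        (Fintype.piFinset (fun _ : Fin k => Icc 1 N)).filter (fun a => a x.1 = a x.2))).card ≤ k ^ 2 * N ^ (k - 1) := by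
      refine card_biUnion_le.trans ?_
      calc _ ≤ ∑ _x : Fin k × Fin k, N ^ (k - 1) := by
            refine sum_le_sum fun x _ => ?_
            split_ifs with hx
            · rw [card_empty]
              exact Nat.zero_le _
            · exact card_pair N x.1 x.2 hx
        _ = _ := by
            rw [sum_const, card_univ, Fintype.card_prod, Fintype.card_fin, smul_eq_mul, sq]
    have d2 : (((univ : Finset (Fin k × Fin k)).biUnion (fun x => if x.1 = x.2 then ∅ else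
        (Fintype.piFinset (fun _ : Fin k => Icc 1 N)).filter (fun a => a x.1 = a x.2))).card : ℝ) ≤
        (k : ℝ) ^ 2 * N ^ (k - 1) := by exact_mod_cast d1
    refine d2.trans ?_
    rw [le_div_iff₀ (by positivity)]
    have e : (N : ℝ) ^ k = N * N ^ (k - 1) := by
      rw [← pow_succ']
      congr 1
      omega
    rw [e]
    calc (k : ℝ) ^ 2 * N ^ (k - 1) * L ^ (U + 1) ≤ L * N ^ (k - 1) * L ^ (U + 1) := by
          have : (k : ℝ) ^ 2 ≤ L := by linarith
          gcongr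
      _ = L ^ (U + 2) * N ^ (k - 1) := by ring
      _ ≤ _ := mul_le_mul_of_nonneg_right h2 (by positivity)
  have hcr : (E.card : ℝ) ≤ Ex.card + ((Fintype.piFinset (fun _ : Fin k => Icc 1 n)).card +
      (((univ : Finset (Fin k × Fin k)).biUnion (fun x => if x.1 = x.2 then ∅ else
        (Fintype.piFinset (fun _ : Fin k => Icc 1 N)).filter (fun a => a x.1 = a x.2))).card : ℝ)) := by
    exact_mod_cast hc
  calc (E.card : ℝ) ≤ 3 * (N ^ k / L ^ (U + 1)) := by linarith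
    _ ≤ L * (N ^ k / L ^ (U + 1)) := mul_le_mul_of_nonneg_right (by linarith) (by positivity)
    _ = _ := by
      rw [pow_succ L U]
      field_simp

end Run7.h251.SP
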