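import Mathlib

/-! The singular series of the problem of representing `a 0, ..., a (k-1)` as sums of a common prime and primes. -/

set_option autoImplicit false

namespace Run7.h251.SP

open Finset Filter Topology

/-- the number of the residues `r` modulo `p` with `p ∣ r ∏ (a i - r)` -/
def roots {k : ℕ} (a : Fin k → ℕ) (p : ℕ) : ℕ :=
  ((range p).filter (fun r : ℕ => (p : ℤ) ∣ (r : ℤ) * ∏ i, ((a i : ℤ) - (r : ℤ)))).card

/-- the local factor -/
noncomputable def fac {k : ℕ} (a : Fin k → ℕ) (p : ℕ) : ℝ :=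
  (1 - (roots a p : ℝ) / p) / (1 - 1 / (p : ℝ)) ^ (k + 1)

/-- the partial product of the singular series -/
noncomputable def series {k : ℕ} (a : Fin k → ℕ) (z : ℕ) : ℝ :=
  ∏ p ∈ (Icc 1 z).filter Nat.Prime, fac a p

theorem roots_le {k : ℕ} (a : Fin k → ℕ) {p : ℕ} (hp : p.Prime) : roots a p ≤ k + 1 := by
  have hpi : Prime (p : ℤ) := Nat.prime_iff_prime_int.1 hp
  have h : (range p).filter (fun r : ℕ => (p : ℤ) ∣ (r : ℤ) * ∏ i, ((a i : ℤ) - (r : ℤ))) ⊆
      insert 0 (univ.image (fun i : Fin k => a i % p)) := by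
    intro r hr
    rw [mem_filter, mem_range] at hr
    obtain ⟨h1, h2⟩ := hr
    rw [mem_insert, mem_image]
    rcases hpi.dvd_or_dvd h2 with h3 | h3
    · left
      rw [Int.natCast_dvd_natCast] at h3
      rcases Nat.eq_zero_or_pos r with h4 | h4
      · exact h4
      · have := Nat.le_of_dvd h4 h3
        omega
    · right
      obtain ⟨i, -, h4⟩ := (Prime.dvd_finsetProd_iff hpi _).1 h3
      refine ⟨i, mem_univ _, ?_⟩
      have h5 : a i ≡ r [MOD p] := by
        rw [← Int.natCast_modEq_iff]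
        exact (Int.modEq_iff_dvd.2 h4).symm
      have h6 : r % p = r := Nat.mod_eq_of_lt h1
      rw [← h6]
      exact h5
  refine (card_le_card h).trans ((card_insert_le _ _).trans ?_)
  have := card_image_le (s := (univ : Finset (Fin k))) (f := fun i : Fin k => a i % p)
  rw [card_univ, Fintype.card_fin] at this
  omega

theorem roots_le_self {k : ℕ} (a : Fin k → ℕ) (p : ℕ) : roots a p ≤ p := by
  refine (card_filter_le _ _).trans ?_
  rw [card_range]

theorem roots_ge {k : ℕ} (a : Fin k → ℕ) {p : ℕ} (hp : p.Prime) (h1 : ∀ i, ¬ p ∣ a i)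
    (h2 : ∀ i j, i ≠ j → ¬ a i ≡ a j [MOD p]) : k + 1 ≤ roots a p := by
  have h : insert 0 (univ.image (fun i : Fin k => a i % p)) ⊆
      (range p).filter (fun r : ℕ => (p : ℤ) ∣ (r : ℤ) * ∏ i, ((a i : ℤ) - (r : ℤ))) := by
    intro r hr
    rw [mem_insert, mem_image] at hr
    rw [mem_filter, mem_range]
    rcases hr with rfl | ⟨i, -, rfl⟩
    · exact ⟨hp.pos, by simp⟩
    · refine ⟨Nat.mod_lt _ hp.pos, Dvd.dvd.mul_left ?_ _⟩
      refine dvd_trans ?_ (dvd_prod_of_mem _ (mem_univ i))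
      have h5 : (a i % p) ≡ a i [MOD p] := Nat.mod_modEq _ _
      have h6 := (Nat.modEq_iff_dvd.1 h5)
      exact h6
  refine le_trans ?_ (card_le_card h)
  rw [card_insert_of_notMem, card_image_of_injective, card_univ, Fintype.card_fin]
  · intro i j hij
    by_contra hne
    exact h2 i j hne hij
  · rw [mem_image]
    rintro ⟨i, -, hi⟩
    exact h1 i (Nat.dvd_of_mod_eq_zero hi)

theorem fac_nonneg {k : ℕ} (a : Fin k → ℕ) {p : ℕ} (hp : p.Prime) : 0 ≤ fac a p := by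
  have h2 : (2 : ℝ) ≤ p := by exact_mod_cast hp.two_le
  unfold fac
  apply div_nonneg
  · have h3 : (roots a p : ℝ) ≤ p := by exact_mod_cast roots_le_self a p
    rw [sub_nonneg, div_le_one (by linarith)]
    exact h3
  · apply pow_nonneg
    rw [sub_nonneg, div_le_one (by linarith)]
    linarith

theorem pow_bounds (K : ℕ) (x : ℝ) (h0 : 0 ≤ x) (h1 : x ≤ 1) :
    1 - K * x ≤ (1 - x) ^ K ∧ (1 - x) ^ K ≤ 1 - K * x + K ^ 2 * x ^ 2 := by
  constructor
  · have := one_add_mul_le_pow (a := -x) (by linarith) K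
    have e : (1 - x) ^ K = (1 + -x) ^ K := by ring
    rw [e]
    linarith
  · induction K with
    | zero => simp
    | succ n ih =>
      rw [pow_succ]
      have hn : (0 : ℝ) ≤ n := Nat.cast_nonneg n
      calc (1 - x) ^ n * (1 - x) ≤ (1 - n * x + n ^ 2 * x ^ 2) * (1 - x) :=
            mul_le_mul_of_nonneg_right ih (by linarith)
        _ ≤ _ := by
          push_cast
          nlinarith [mul_nonneg (mul_nonneg hn hn) (mul_nonneg h0 (mul_nonneg h0 h0)), mul_nonneg hn (mul_nonneg h0 h0),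
            mul_nonneg h0 h0]

theorem one_sub_sum_le (s : Finset ℕ) (x : ℕ → ℝ) (h : ∀ i ∈ s, 0 ≤ x i ∧ x i ≤ 1) :
    1 - ∑ i ∈ s, x i ≤ ∏ i ∈ s, (1 - x i) := by
  classical
  induction s using Finset.induction_on with
  | empty => simp
  | insert i s hi ih =>
    rw [sum_insert hi, prod_insert hi]
    have h1 := ih fun j hj => h j (mem_insert_of_mem hj)
    obtain ⟨h2, h3⟩ := h i (mem_insert_self _ _)
    have h4 : 0 ≤ ∑ j ∈ s, x j := sum_nonneg fun j hj => (h j (mem_insert_of_mem hj)).1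
    have h5 : (1 - x i) * (1 - ∑ j ∈ s, x j) ≤ (1 - x i) * ∏ j ∈ s, (1 - x j) :=
      mul_le_mul_of_nonneg_left h1 (by linarith)
    nlinarith [mul_nonneg h2 h4]

theorem fac_lower {k : ℕ} (a : Fin k → ℕ) {p : ℕ} (hp : p.Prime) (hk : 2 * (k + 1) ≤ p) :
    1 - 2 * ((k : ℝ) + 1) ^ 2 / (p : ℝ) ^ 2 ≤ fac a p := by
  have hkr : 2 * ((k : ℝ) + 1) ≤ p := by exact_mod_cast hk
  have hk0 : (0 : ℝ) ≤ k := Nat.cast_nonneg k
  have hp0 : (0 : ℝ) < p := by linarith
  have hρ : (roots a p : ℝ) ≤ (k : ℝ) + 1 := by exact_mod_cast roots_le a hp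
  obtain ⟨K, hK⟩ : ∃ K : ℝ, K = (k : ℝ) + 1 := ⟨_, rfl⟩
  rw [← hK] at hkr hρ ⊢
  have hK1 : 1 ≤ K := by rw [hK]; linarith
  obtain ⟨-, hb⟩ := pow_bounds (k + 1) (1 / p) (by positivity) (by rw [div_le_one hp0]; linarith)
  have hb' : (1 - 1 / (p : ℝ)) ^ (k + 1) ≤ 1 - K / p + K ^ 2 / p ^ 2 := by
    refine hb.trans (le_of_eq ?_)
    push_cast
    rw [← hK]
    ring
  have hx : K / p ≤ 1 / 2 := by
    rw [div_le_div_iff₀ hp0 (by norm_num)]
    linarith
  have hpos : 0 < (1 - 1 / (p : ℝ)) ^ (k + 1) := by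
    apply pow_pos
    rw [sub_pos, div_lt_one hp0]
    linarith
  unfold fac
  rw [le_div_iff₀ hpos]
  have hx0 : 0 ≤ K / p := by positivity
  obtain ⟨x, hxd⟩ : ∃ x, x = K / p := ⟨_, rfl⟩
  have e1 : K ^ 2 / (p : ℝ) ^ 2 = x ^ 2 := by rw [hxd, div_pow]
  have e2 : 2 * K ^ 2 / (p : ℝ) ^ 2 = 2 * x ^ 2 := by rw [hxd, div_pow]; ring
  rw [e1] at hb'
  rw [e2]
  rw [← hxd] at hb' hx hx0
  have h3 : 1 - x ≤ 1 - (roots a p : ℝ) / p := by
    rw [hxd]
    have := div_le_div_of_nonneg_right hρ hp0.le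
    linarith
  refine le_trans ?_ h3
  by_cases h4 : 0 ≤ 1 - 2 * x ^ 2
  · refine (mul_le_mul_of_nonneg_left hb' h4).trans ?_
    nlinarith [mul_nonneg hx0 hx0, mul_nonneg (mul_nonneg hx0 hx0) hx0, mul_nonneg (mul_nonneg hx0 hx0) (mul_nonneg hx0 hx0),
      mul_nonneg (mul_nonneg hx0 hx0) (sub_nonneg.2 hx)]
  · push Not at h4
    have : (1 - 2 * x ^ 2) * (1 - 1 / (p : ℝ)) ^ (k + 1) ≤ 0 := mul_nonpos_of_nonpos_of_nonneg h4.le hpos.le
    linarith

theorem fac_upper {k : ℕ} (a : Fin k → ℕ) {p : ℕ} (hk : 2 * (k + 1) ≤ p) :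
    fac a p ≤ 1 + 2 * ((k : ℝ) + 1) / p := by
  have hkr : 2 * ((k : ℝ) + 1) ≤ p := by exact_mod_cast hk
  have hk0 : (0 : ℝ) ≤ k := Nat.cast_nonneg k
  have hp0 : (0 : ℝ) < p := by linarith
  obtain ⟨hb, -⟩ := pow_bounds (k + 1) (1 / p) (by positivity) (by rw [div_le_one hp0]; linarith)
  have hpos : 0 < (1 - 1 / (p : ℝ)) ^ (k + 1) := by
    apply pow_pos
    rw [sub_pos, div_lt_one hp0]
    linarith
  obtain ⟨x, hxd⟩ : ∃ x, x = ((k : ℝ) + 1) / p := ⟨_, rfl⟩
  have hx : x ≤ 1 / 2 := by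
    rw [hxd, div_le_div_iff₀ hp0 (by norm_num)]
    linarith
  have hx0 : 0 ≤ x := by rw [hxd]; positivity
  have e1 : (1 : ℝ) - ((k + 1 : ℕ) : ℝ) * (1 / p) = 1 - x := by
    rw [hxd]
    push_cast
    ring
  rw [e1] at hb
  have e2 : 2 * ((k : ℝ) + 1) / p = 2 * x := by rw [hxd]; ring
  rw [e2]
  unfold fac
  rw [div_le_iff₀ hpos]
  have h3 : 1 - (roots a p : ℝ) / p ≤ 1 := by
    have : (0 : ℝ) ≤ (roots a p : ℝ) / p := by positivity
    linarith
  refine h3.trans ?_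
  calc (1 : ℝ) ≤ (1 + 2 * x) * (1 - x) := by nlinarith
    _ ≤ _ := mul_le_mul_of_nonneg_left hb (by linarith)

theorem fac_le_one {k : ℕ} (a : Fin k → ℕ) {p : ℕ} (hp : p.Prime) (hr : k + 1 ≤ roots a p) :
    fac a p ≤ 1 := by
  have h2 : (2 : ℝ) ≤ p := by exact_mod_cast hp.two_le
  have hp0 : (0 : ℝ) < p := by linarith
  obtain ⟨hb, -⟩ := pow_bounds (k + 1) (1 / p) (by positivity) (by rw [div_le_one hp0]; linarith)
  have hpos : 0 < (1 - 1 / (p : ℝ)) ^ (k + 1) := by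
    apply pow_pos
    rw [sub_pos, div_lt_one hp0]
    linarith
  unfold fac
  rw [div_le_one hpos]
  refine le_trans ?_ hb
  have h3 : ((k + 1 : ℕ) : ℝ) * (1 / p) ≤ (roots a p : ℝ) / p := by
    rw [mul_one_div]
    exact div_le_div_of_nonneg_right (by exact_mod_cast hr) hp0.le
  linarith

/-- the number whose prime factors are exceptional -/
def disc {k : ℕ} (a : Fin k → ℕ) : ℤ :=
  (∏ i, (a i : ℤ)) * ∏ x ∈ (univ : Finset (Fin k × Fin k)).filter (fun x => x.1 ≠ x.2), ((a x.1 : ℤ) - a x.2)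

theorem disc_ne {k : ℕ} (a : Fin k → ℕ) (h1 : ∀ i, 1 ≤ a i) (h2 : Function.Injective a) : disc a ≠ 0 := by
  unfold disc
  apply mul_ne_zero
  · rw [prod_ne_zero_iff]
    intro i _
    have := h1 i
    omega
  · rw [prod_ne_zero_iff]
    intro x hx
    rw [mem_filter] at hx
    intro h
    apply hx.2
    apply h2
    omega

theorem roots_of_not_dvd {k : ℕ} (a : Fin k → ℕ) {p : ℕ} (hp : p.Prime) (h : ¬ (p : ℤ) ∣ disc a) :
    k + 1 ≤ roots a p := by
  apply roots_ge a hp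
  · intro i hi
    apply h
    unfold disc
    apply Dvd.dvd.mul_right
    exact dvd_trans (Int.natCast_dvd_natCast.2 hi) (dvd_prod_of_mem _ (mem_univ i))
  · intro i j hij hm
    apply h
    unfold disc
    apply Dvd.dvd.mul_left
    refine dvd_trans ?_ (dvd_prod_of_mem _ (show (j, i) ∈ _ from mem_filter.2 ⟨mem_univ _, fun h => hij h.symm⟩))
    exact Nat.modEq_iff_dvd.1 hm

theorem disc_le {k : ℕ} (a : Fin k → ℕ) {N : ℕ} (hN : 1 ≤ N) (h : ∀ i, a i ≤ N) :
    (disc a).natAbs ≤ N ^ (k + k ^ 2) := by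
  unfold disc
  rw [Int.natAbs_mul, pow_add]
  apply Nat.mul_le_mul
  · rw [← Int.natAbs_natCast (N ^ k)]
    have : (∏ i, (a i : ℤ)).natAbs = ∏ i, a i := by
      rw [← Nat.cast_prod, Int.natAbs_natCast]
    rw [this, Int.natAbs_natCast]
    refine (prod_le_prod' fun i _ => h i).trans ?_
    rw [prod_const, card_univ, Fintype.card_fin]
  · have h1 : (∏ x ∈ (univ : Finset (Fin k × Fin k)).filter (fun x => x.1 ≠ x.2), ((a x.1 : ℤ) - a x.2)).natAbs =
        ∏ x ∈ (univ : Finset (Fin k × Fin k)).filter (fun x => x.1 ≠ x.2), ((a x.1 : ℤ) - a x.2).natAbs := by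
      exact map_prod Int.natAbsHom _ _
    rw [h1]
    refine (prod_le_prod' (g := fun _ => N) fun x _ => ?_).trans ?_
    · have h2 := h x.1
      have h3 := h x.2
      omega
    · rw [prod_const]
      apply Nat.pow_le_pow_right hN
      refine (card_filter_le _ _).trans ?_
      rw [card_univ, Fintype.card_prod, Fintype.card_fin, sq]

theorem card_primes_le {D : ℕ} (hD : D ≠ 0) : 2 ^ D.primeFactors.card ≤ D := by
  have h1 : 2 ^ D.primeFactors.card ≤ ∏ p ∈ D.primeFactors, p := by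
    apply pow_card_le_prod
    intro p hp
    exact (Nat.prime_of_mem_primeFactors hp).two_le
  exact h1.trans (Nat.le_of_dvd (Nat.pos_of_ne_zero hD) (Nat.prod_primeFactors_dvd D))

theorem card_primes_le_log {k : ℕ} (a : Fin k → ℕ) (h1 : ∀ i, 1 ≤ a i) (h2 : Function.Injective a) {N : ℕ} (hN : 1 ≤ N)
    (h : ∀ i, a i ≤ N) : (((disc a).natAbs.primeFactors.card : ℕ) : ℝ) ≤ 2 * ((k : ℝ) + k ^ 2) * Real.log N := by
  have h3 : (disc a).natAbs ≠ 0 := Int.natAbs_ne_zero.2 (disc_ne a h1 h2)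
  have h4 := (card_primes_le h3).trans (disc_le a hN h)
  have h5 : ((2 : ℝ)) ^ (disc a).natAbs.primeFactors.card ≤ (N : ℝ) ^ (k + k ^ 2) := by exact_mod_cast h4
  have h6 := Real.log_le_log (by positivity) h5
  rw [Real.log_pow, Real.log_pow] at h6
  have h7 := Real.log_two_gt_d9
  have h8 : (0 : ℝ) ≤ (((disc a).natAbs.primeFactors.card : ℕ) : ℝ) := Nat.cast_nonneg _
  push_cast at h6
  nlinarith

/-- the product over the primes of `(z, z']` -/
noncomputable def mid {k : ℕ} (a : Fin k → ℕ) (z z' : ℕ) : ℝ := ∏ p ∈ (Ioc z z').filter Nat.Prime, fac a p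

theorem series_mid {k : ℕ} (a : Fin k → ℕ) {z z' : ℕ} (h : z ≤ z') : series a z' = series a z * mid a z z' := by
  unfold series mid
  rw [← prod_union]
  · congr 1
    ext p
    simp only [mem_filter, mem_Icc, mem_Ioc, mem_union]
    constructor
    · rintro ⟨⟨h1, h2⟩, h3⟩
      by_cases h4 : p ≤ z
      · exact Or.inl ⟨⟨h1, h4⟩, h3⟩
      · exact Or.inr ⟨⟨by omega, h2⟩, h3⟩
    · rintro (⟨⟨h1, h2⟩, h3⟩ | ⟨⟨h1, h2⟩, h3⟩)
      · exact ⟨⟨h1, by omega⟩, h3⟩
      · exact ⟨⟨by omega, h2⟩, h3⟩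
  · rw [disjoint_left]
    intro p h1 h2
    rw [mem_filter, mem_Icc] at h1
    rw [mem_filter, mem_Ioc] at h2
    omega

theorem series_nonneg {k : ℕ} (a : Fin k → ℕ) (z : ℕ) : 0 ≤ series a z :=
  prod_nonneg fun p hp => fac_nonneg a (mem_filter.1 hp).2

theorem mid_lower {k : ℕ} (a : Fin k → ℕ) {z z' : ℕ} (hz : 2 * (k + 1) ≤ z) (h : z ≤ z') :
    1 - 2 * ((k : ℝ) + 1) ^ 2 / z ≤ mid a z z' := by
  have hz0 : (0 : ℝ) < z := by exact_mod_cast (by omega : 0 < z)
  by_cases hbig : 2 * ((k : ℝ) + 1) ^ 2 / z ≤ 1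
  swap
  · push Not at hbig
    have : 0 ≤ mid a z z' := prod_nonneg fun p hp => fac_nonneg a (mem_filter.1 hp).2
    linarith
  have hx : ∀ p ∈ (Ioc z z').filter Nat.Prime, 0 ≤ 2 * ((k : ℝ) + 1) ^ 2 / (p : ℝ) ^ 2 ∧
      2 * ((k : ℝ) + 1) ^ 2 / (p : ℝ) ^ 2 ≤ 1 := by
    intro p hp
    rw [mem_filter, mem_Ioc] at hp
    have hzp : (z : ℝ) ≤ p := by exact_mod_cast hp.1.1.le
    have hp1 : (1 : ℝ) ≤ p := by
      have : (1 : ℝ) ≤ z := by exact_mod_cast (by omega : 1 ≤ z)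
      linarith
    refine ⟨by positivity, le_trans ?_ hbig⟩
    apply div_le_div_of_nonneg_left (by positivity) hz0
    nlinarith
  have h1 : 1 - ∑ p ∈ (Ioc z z').filter Nat.Prime, 2 * ((k : ℝ) + 1) ^ 2 / (p : ℝ) ^ 2 ≤
      ∏ p ∈ (Ioc z z').filter Nat.Prime, (1 - 2 * ((k : ℝ) + 1) ^ 2 / (p : ℝ) ^ 2) := by
    exact one_sub_sum_le _ _ fun p hp => hx p hp
  have h2 : ∏ p ∈ (Ioc z z').filter Nat.Prime, (1 - 2 * ((k : ℝ) + 1) ^ 2 / (p : ℝ) ^ 2) ≤ mid a z z' := by
    apply Finset.prod_le_prod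
    · intro p hp
      have := (hx p hp).2
      linarith
    · intro p hp
      rw [mem_filter, mem_Ioc] at hp
      exact fac_lower a hp.2 (by omega)
  refine le_trans ?_ (h1.trans h2)
  have h3 : ∑ p ∈ (Ioc z z').filter Nat.Prime, 2 * ((k : ℝ) + 1) ^ 2 / (p : ℝ) ^ 2 ≤ 2 * ((k : ℝ) + 1) ^ 2 / z := by
    have h4 : ∑ p ∈ (Ioc z z').filter Nat.Prime, 2 * ((k : ℝ) + 1) ^ 2 / (p : ℝ) ^ 2 ≤
        ∑ p ∈ Ioc z z', 2 * ((k : ℝ) + 1) ^ 2 / (p : ℝ) ^ 2 :=
      sum_le_sum_of_subset_of_nonneg (filter_subset _ _) fun _ _ _ => by positivity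
    refine h4.trans ?_
    have h5 := sum_Ioc_inv_sq_le_sub (α := ℝ) (k := z) (n := z') (by omega) h
    have h6 : ∑ p ∈ Ioc z z', 2 * ((k : ℝ) + 1) ^ 2 / (p : ℝ) ^ 2 =
        2 * ((k : ℝ) + 1) ^ 2 * ∑ p ∈ Ioc z z', ((p : ℝ) ^ 2)⁻¹ := by
      rw [mul_sum]
      exact sum_congr rfl fun p _ => by rw [div_eq_mul_inv]
    rw [h6, div_eq_mul_inv]
    apply mul_le_mul_of_nonneg_left _ (by positivity)
    have h7 : (0 : ℝ) ≤ (z' : ℝ)⁻¹ := by positivity
    linarith
  linarith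

theorem mid_upper {k : ℕ} (a : Fin k → ℕ) {z z' : ℕ} (hz : 2 * (k + 1) ≤ z) (h0 : disc a ≠ 0) :
    mid a z z' ≤ Real.exp (2 * ((k : ℝ) + 1) * (disc a).natAbs.primeFactors.card / z) := by
  classical
  have hz0 : (0 : ℝ) < z := by exact_mod_cast (by omega : 0 < z)
  have h1 : mid a z z' ≤ ∏ p ∈ (Ioc z z').filter Nat.Prime,
      Real.exp (if p ∣ (disc a).natAbs then 2 * ((k : ℝ) + 1) / z else 0) := by
    apply Finset.prod_le_prod
    · intro p hp
      exact fac_nonneg a (mem_filter.1 hp).2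
    · intro p hp
      rw [mem_filter, mem_Ioc] at hp
      split_ifs with h2
      · refine (fac_upper a (by omega)).trans ?_
        have h3 : 2 * ((k : ℝ) + 1) / p ≤ 2 * ((k : ℝ) + 1) / z :=
          div_le_div_of_nonneg_left (by positivity) hz0 (by exact_mod_cast hp.1.1.le)
        have h4 := Real.add_one_le_exp (2 * ((k : ℝ) + 1) / z)
        linarith
      · rw [Real.exp_zero]
        apply fac_le_one a hp.2
        apply roots_of_not_dvd a hp.2
        intro h3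
        exact h2 (Int.natCast_dvd.1 h3)
  refine h1.trans ?_
  rw [← Real.exp_sum]
  apply Real.exp_le_exp.2
  rw [← sum_filter, sum_const, nsmul_eq_mul]
  have h2 : (((Ioc z z').filter Nat.Prime).filter (fun p => p ∣ (disc a).natAbs)).card ≤
      (disc a).natAbs.primeFactors.card := by
    apply card_le_card
    intro p hp
    rw [mem_filter, mem_filter] at hp
    exact Nat.mem_primeFactors.2 ⟨hp.1.2, hp.2, Int.natAbs_ne_zero.2 h0⟩
  have h3 : ((((Ioc z z').filter Nat.Prime).filter (fun p => p ∣ (disc a).natAbs)).card : ℝ) ≤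
      (disc a).natAbs.primeFactors.card := by exact_mod_cast h2
  calc _ ≤ ((disc a).natAbs.primeFactors.card : ℝ) * (2 * ((k : ℝ) + 1) / z) :=
        mul_le_mul_of_nonneg_right h3 (by positivity)
    _ = _ := by ring

/-- the singular series converges -/
theorem exists_limit {k : ℕ} (a : Fin k → ℕ) (h0 : disc a ≠ 0) : ∃ h : ℝ, Tendsto (series a) atTop (𝓝 h) := by
  obtain ⟨z₀, hz₀⟩ : ∃ z₀, z₀ = 2 * (k + 1) + (disc a).natAbs := ⟨_, rfl⟩
  have hanti : Antitone (fun n => series a (n + z₀)) := by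
    apply antitone_nat_of_succ_le
    intro n
    rw [series_mid a (show n + z₀ ≤ n + 1 + z₀ by omega)]
    have h1 := series_nonneg a (n + z₀)
    have h2 : mid a (n + z₀) (n + 1 + z₀) ≤ 1 := by
      apply Finset.prod_le_one
      · intro p hp
        exact fac_nonneg a (mem_filter.1 hp).2
      · intro p hp
        rw [mem_filter, mem_Ioc] at hp
        apply fac_le_one a hp.2
        apply roots_of_not_dvd a hp.2
        intro h3
        have h4 := Nat.le_of_dvd (Int.natAbs_pos.2 h0) (Int.natCast_dvd.1 h3)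
        omega
    calc series a (n + z₀) * mid a (n + z₀) (n + 1 + z₀) ≤ series a (n + z₀) * 1 :=
          mul_le_mul_of_nonneg_left h2 h1
      _ = _ := mul_one _
  have hbdd : BddBelow (Set.range fun n => series a (n + z₀)) := ⟨0, by
    rintro _ ⟨n, rfl⟩
    exact series_nonneg a _⟩
  exact ⟨_, (tendsto_add_atTop_iff_nat z₀).1 (tendsto_atTop_ciInf hanti hbdd)⟩

theorem limit_lower {k : ℕ} (a : Fin k → ℕ) {h : ℝ} (hh : Tendsto (series a) atTop (𝓝 h)) {z : ℕ}
    (hz : 2 * (k + 1) ≤ z) : series a z * (1 - 2 * ((k : ℝ) + 1) ^ 2 / z) ≤ h := by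
  refine ge_of_tendsto hh ?_
  filter_upwards [eventually_ge_atTop z] with z' hz'
  rw [series_mid a hz']
  exact mul_le_mul_of_nonneg_left (mid_lower a hz hz') (series_nonneg a z)

theorem limit_upper {k : ℕ} (a : Fin k → ℕ) (h0 : disc a ≠ 0) {h : ℝ} (hh : Tendsto (series a) atTop (𝓝 h)) {z : ℕ}
    (hz : 2 * (k + 1) ≤ z) :
    h ≤ series a z * Real.exp (2 * ((k : ℝ) + 1) * (disc a).natAbs.primeFactors.card / z) := by
  refine le_of_tendsto hh ?_
  filter_upwards [eventually_ge_atTop z] with z' hz'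
  rw [series_mid a hz']
  exact mul_le_mul_of_nonneg_left (mid_upper a hz h0) (series_nonneg a z)

/-- a lower bound for the singular series -/
noncomputable def low (k : ℕ) : ℝ :=
  (∏ p ∈ (Icc 1 (4 * (k + 1) ^ 2)).filter Nat.Prime, 1 / (p : ℝ)) / 2

theorem low_pos (k : ℕ) : 0 < low k := by
  unfold low
  apply div_pos _ (by norm_num)
  apply prod_pos
  intro p hp
  have := (mem_filter.1 hp).2.pos
  positivity

theorem low_le {k : ℕ} (a : Fin k → ℕ) {h : ℝ} (hh : Tendsto (series a) atTop (𝓝 h))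
    (hadm : ∀ p : ℕ, p.Prime → roots a p < p) : low k ≤ h := by
  obtain ⟨z, hz⟩ : ∃ z, z = 4 * (k + 1) ^ 2 := ⟨_, rfl⟩
  have hz2 : 2 * (k + 1) ≤ z := by rw [hz]; nlinarith
  have hzr : (z : ℝ) = 4 * ((k : ℝ) + 1) ^ 2 := by rw [hz]; push_cast; ring
  refine le_trans ?_ (limit_lower a hh hz2)
  have hk0 : (0 : ℝ) ≤ k := Nat.cast_nonneg k
  have e : 1 - 2 * ((k : ℝ) + 1) ^ 2 / z = 1 / 2 := by
    rw [hzr]
    field_simp
    ring
  rw [e]
  unfold low
  rw [div_eq_mul_one_div]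
  apply mul_le_mul_of_nonneg_right _ (by norm_num)
  unfold series
  rw [← hz]
  apply Finset.prod_le_prod
  · intro p _
    positivity
  · intro p hp
    have hpp := (mem_filter.1 hp).2
    have h2 : (2 : ℝ) ≤ p := by exact_mod_cast hpp.two_le
    have hp0 : (0 : ℝ) < p := by linarith
    have hpos : 0 < (1 - 1 / (p : ℝ)) := by
      rw [sub_pos, div_lt_one hp0]
      linarith
    have hle1 : (1 - 1 / (p : ℝ)) ^ (k + 1) ≤ 1 := by
      apply pow_le_one₀ hpos.le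
      have : (0 : ℝ) < 1 / p := by positivity
      linarith
    unfold fac
    rw [le_div_iff₀ (pow_pos hpos _)]
    have h3 : (roots a p : ℝ) + 1 ≤ p := by exact_mod_cast hadm p hpp
    have h4 : 1 / (p : ℝ) ≤ 1 - (roots a p : ℝ) / p := by
      rw [div_le_iff₀ hp0, sub_mul, div_mul_cancel₀ _ hp0.ne']
      linarith
    calc 1 / (p : ℝ) * (1 - 1 / (p : ℝ)) ^ (k + 1) ≤ 1 / (p : ℝ) * 1 :=
          mul_le_mul_of_nonneg_left hle1 (by positivity)
      _ ≤ _ := by rw [mul_one]; exact h4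

end Run7.h251.SP
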